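import Mathlib
import Pool.Agent.L7h48.SG.Stm

/-!
# Project SG (helper48, MP_b4b3cb_nt): Kummer theory of open subgroups, powers of roots of unity
-/

set_option autoImplicit false
set_option linter.unusedSectionVars false

namespace Pool.Agent.L7h60.SG

open Pool.Agent.L7h48.SG

/-- `ζ ^ a` for `a : ZMod p` -/
def zc {Ω : Type*} [Field Ω] {p : ℕ} (ζ : Ω) (a : ZMod p) : Ω := ζ ^ a.val

section

variable {Ω : Type*} [Field Ω] {p : ℕ} [hpF : Fact p.Prime] {ζ : Ω}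

lemma zc_zero : zc ζ (0 : ZMod p) = 1 := by
  unfold zc
  rw [ZMod.val_zero, pow_zero]

lemma zc_natCast (h : ζ ^ p = 1) (n : ℕ) : zc ζ (n : ZMod p) = ζ ^ n := by
  unfold zc
  rw [ZMod.val_natCast]
  exact (pow_eq_pow_mod n h).symm

lemma zc_add (h : ζ ^ p = 1) (a b : ZMod p) : zc ζ (a + b) = zc ζ a * zc ζ b := by
  unfold zc
  rw [ZMod.val_add, ← pow_add]
  exact (pow_eq_pow_mod _ h).symm

lemma zc_ne (h : ζ ^ p = 1) (a : ZMod p) : zc ζ a ≠ 0 := by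
  have h0 : ζ ≠ 0 := by
    rintro rfl
    rw [zero_pow (Fact.out : p.Prime).ne_zero] at h
    exact zero_ne_one h
  exact pow_ne_zero _ h0

lemma zc_neg (h : ζ ^ p = 1) (a : ZMod p) : zc ζ (-a) = (zc ζ a)⁻¹ := by
  have h1 := zc_add h a (-a)
  rw [add_neg_cancel, zc_zero] at h1
  exact eq_inv_of_mul_eq_one_right h1.symm

lemma zc_sum (h : ζ ^ p = 1) {ι : Type*} (s : Finset ι) (f : ι → ZMod p) :
    zc ζ (∑ i ∈ s, f i) = ∏ i ∈ s, zc ζ (f i) := by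
  classical
  induction s using Finset.induction_on with
  | empty => rw [Finset.sum_empty, Finset.prod_empty, zc_zero]
  | insert a s ha ih => rw [Finset.sum_insert ha, Finset.prod_insert ha, zc_add h, ih]

lemma zc_inj (h : IsPrimitiveRoot ζ p) {a b : ZMod p} (hab : zc ζ a = zc ζ b) : a = b :=
  ZMod.val_injective p (h.pow_inj (ZMod.val_lt a) (ZMod.val_lt b) hab)

lemma exists_zc (h : IsPrimitiveRoot ζ p) {x : Ω} (hx : x ^ p = 1) : ∃ a : ZMod p, x = zc ζ a := by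
  have hp : 0 < p := (Fact.out : p.Prime).pos
  have : NeZero p := ⟨hp.ne'⟩
  obtain ⟨i, hi, hix⟩ := h.eq_pow_of_pow_eq_one hx
  exact ⟨(i : ZMod p), by rw [zc_natCast h.pow_eq_one, hix]⟩

lemma map_zc {F : Type*} [FunLike F Ω Ω] [RingHomClass F Ω Ω] (σ : F) (h : σ ζ = ζ) (a : ZMod p) :
    σ (zc ζ a) = zc ζ a := by
  unfold zc
  rw [map_pow, h]

end

section hom

variable (p : ℕ) [Fact p.Prime] {G : Type} [Group G] [TopologicalSpace G]

lemma HP.mul {U : Subgroup G} {φ : G → ZMod p} (h : φ ∈ HP p U) {x y : G} (hx : x ∈ U)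
    (hy : y ∈ U) : φ (x * y) = φ x + φ y := h.2.1 x hx y hy

lemma HP.one {U : Subgroup G} {φ : G → ZMod p} (h : φ ∈ HP p U) : φ 1 = 0 := by
  have h1 := h.2.1 1 U.one_mem 1 U.one_mem
  rw [mul_one] at h1
  exact left_eq_add.1 h1

lemma HP.inv {U : Subgroup G} {φ : G → ZMod p} (h : φ ∈ HP p U) {x : G} (hx : x ∈ U) :
    φ x⁻¹ = -φ x := by
  have h1 := h.2.1 x hx x⁻¹ (U.inv_mem hx)
  rw [mul_inv_cancel, HP.one p h] at h1
  exact (neg_eq_of_add_eq_zero_right h1.symm).symm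

lemma HP.pow {U : Subgroup G} {φ : G → ZMod p} (h : φ ∈ HP p U) {x : G} (hx : x ∈ U) (n : ℕ) :
    φ (x ^ n) = n * φ x := by
  induction n with
  | zero => rw [pow_zero, HP.one p h, Nat.cast_zero, zero_mul]
  | succ n ih =>
    rw [pow_succ, HP.mul p h (U.pow_mem hx n) hx, ih]
    push_cast
    ring

/-- the kernel of a homomorphism -/
def Kr {U : Subgroup G} {φ : G → ZMod p} (h : φ ∈ HP p U) : Subgroup G where
  carrier := {x | x ∈ U ∧ φ x = 0}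
  mul_mem' := by
    rintro x y ⟨hx, hx'⟩ ⟨hy, hy'⟩
    exact ⟨U.mul_mem hx hy, by rw [HP.mul p h hx hy, hx', hy', add_zero]⟩
  one_mem' := ⟨U.one_mem, HP.one p h⟩
  inv_mem' := by
    rintro x ⟨hx, hx'⟩
    exact ⟨U.inv_mem hx, by rw [HP.inv p h hx, hx', neg_zero]⟩

lemma mem_Kr {U : Subgroup G} {φ : G → ZMod p} (h : φ ∈ HP p U) (x : G) :
    x ∈ Kr p h ↔ x ∈ U ∧ φ x = 0 := Iff.rfl

lemma isOpen_Kr {U : Subgroup G} (hU : IsOpen (U : Set G)) {φ : G → ZMod p} (h : φ ∈ HP p U) :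
    IsOpen (Kr p h : Set G) := hU.inter (h.1.isOpen_fiber 0)

end hom

/-- **Kummer theory**: homomorphisms of open subgroups to `ZMod p` are given by elements -/
theorem kummer {K Ω : Type} [Field K] [Field Ω] [Algebra K Ω] [IsGalois K Ω] (p : ℕ)
    [Fact p.Prime] (Q : Subgroup (Ω ≃ₐ[K] Ω)) (hQ : IsOpen (Q : Set (Ω ≃ₐ[K] Ω))) (ζ : Ω)
    (hζ : IsPrimitiveRoot ζ p) (hfix : ∀ τ ∈ Q, τ ζ = ζ) (f : (Ω ≃ₐ[K] Ω) → ZMod p)
    (hf : f ∈ HP p Q) : ∃ g : Ω, g ≠ 0 ∧ ∀ u ∈ Q, u g = zc ζ (f u) * g := by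
  classical
  have hp : p.Prime := Fact.out
  have h1ζ := hζ.pow_eq_one
  by_cases h0 : ∀ u ∈ Q, f u = 0
  · exact ⟨1, one_ne_zero, fun u hu => by rw [h0 u hu, zc_zero, map_one, one_mul]⟩
  push Not at h0
  obtain ⟨u₀, hu₀, hc⟩ := h0
  -- an element with value one
  obtain ⟨τ, hτ, hτ1⟩ : ∃ τ ∈ Q, f τ = 1 := by
    refine ⟨u₀ ^ ((f u₀)⁻¹).val, Q.pow_mem hu₀ _, ?_⟩
    rw [HP.pow p hf hu₀, ZMod.natCast_val, ZMod.cast_id, inv_mul_cancel₀ hc]
  set W : Subgroup (Ω ≃ₐ[K] Ω) := Kr p hf with hW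
  have hWo : IsOpen (W : Set (Ω ≃ₐ[K] Ω)) := isOpen_Kr p hQ hf
  have hWc : IsClosed (W : Set (Ω ≃ₐ[K] Ω)) := Subgroup.isClosed_of_isOpen W hWo
  set F := IntermediateField.fixedField W with hF
  have hFW : F.fixingSubgroup = W :=
    InfiniteGalois.fixingSubgroup_fixedField (⟨W, hWc⟩ : ClosedSubgroup (Ω ≃ₐ[K] Ω))
  -- the powers of `τ` are different on `F`
  let χ : Fin p → (F →* Ω) := fun i => ((τ ^ (i : ℕ) : Ω ≃ₐ[K] Ω) : Ω →* Ω).comp (F.val : F →* Ω)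
  have hχ : Function.Injective χ := by
    intro i j hij
    have h1 : (τ ^ (j : ℕ))⁻¹ * τ ^ (i : ℕ) ∈ F.fixingSubgroup := by
      rw [IntermediateField.mem_fixingSubgroup_iff]
      intro x hx
      have h2 := DFunLike.congr_fun hij ⟨x, hx⟩
      change (τ ^ (i : ℕ)) x = (τ ^ (j : ℕ)) x at h2
      rw [AlgEquiv.mul_apply, h2, ← AlgEquiv.mul_apply, inv_mul_cancel]
      rfl
    rw [hFW] at h1
    have h3 := h1.2
    rw [HP.mul p hf (Q.inv_mem (Q.pow_mem hτ _)) (Q.pow_mem hτ _), HP.inv p hf (Q.pow_mem hτ _),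
      HP.pow p hf hτ, HP.pow p hf hτ, hτ1, mul_one, mul_one, neg_add_eq_zero] at h3
    have h4 := (ZMod.natCast_eq_natCast_iff' _ _ _).1 h3
    rw [Nat.mod_eq_of_lt i.2, Nat.mod_eq_of_lt j.2] at h4
    exact (Fin.ext h4).symm
  have hlin : LinearIndependent Ω (fun i : Fin p => (χ i : F → Ω)) :=
    (linearIndependent_monoidHom F Ω).comp χ hχ
  obtain ⟨a, ha⟩ : ∃ a : F, ∑ i : Fin p, zc ζ (-((i : ℕ) : ZMod p)) * χ i a ≠ 0 := by
    by_contra hcon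
    push Not at hcon
    have h1 := (Fintype.linearIndependent_iff.1 hlin) (fun i => zc ζ (-((i : ℕ) : ZMod p))) (by
      funext a
      rw [Finset.sum_apply]
      exact hcon a) ⟨0, hp.pos⟩
    exact zc_ne h1ζ _ h1
  set g := ∑ i : Fin p, zc ζ (-((i : ℕ) : ZMod p)) * χ i a with hg
  have hg' : g = ∑ i ∈ Finset.range p, zc ζ (-(i : ZMod p)) * (τ ^ i) (a : Ω) := by
    rw [hg, Finset.sum_range]
    rfl
  have haW : ∀ u ∈ W, u (a : Ω) = a := by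
    intro u hu
    have h1 : u ∈ F.fixingSubgroup := by rw [hFW]; exact hu
    exact (IntermediateField.mem_fixingSubgroup_iff _ _).1 h1 _ a.2
  -- `τ` acts on `g`
  have hτg : τ g = zc ζ (1 : ZMod p) * g := by
    have h1 : ∀ i : ℕ, τ (zc ζ (-(i : ZMod p)) * (τ ^ i) (a : Ω)) =
        zc ζ (1 : ZMod p) * (zc ζ (-((i + 1 : ℕ) : ZMod p)) * (τ ^ (i + 1)) (a : Ω)) := by
      intro i
      rw [map_mul, map_zc τ (hfix τ hτ), ← mul_assoc, ← zc_add h1ζ, pow_succ', AlgEquiv.mul_apply]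
      congr 2
      push_cast
      ring
    rw [hg', map_sum, Finset.sum_congr rfl (fun i _ => h1 i), ← Finset.mul_sum]
    congr 1
    have h2 := Finset.sum_range_succ' (fun i : ℕ => zc ζ (-(i : ZMod p)) * (τ ^ i) (a : Ω)) p
    have h3 := Finset.sum_range_succ (fun i : ℕ => zc ζ (-(i : ZMod p)) * (τ ^ i) (a : Ω)) p
    rw [h3] at h2
    have h4 : zc ζ (-((p : ℕ) : ZMod p)) * (τ ^ p) (a : Ω) =
        zc ζ (-((0 : ℕ) : ZMod p)) * (τ ^ 0) (a : Ω) := by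
      have h5 : τ ^ p ∈ W := ⟨Q.pow_mem hτ _, by rw [HP.pow p hf hτ, hτ1, mul_one, CharP.cast_eq_zero]⟩
      rw [haW _ h5, pow_zero, CharP.cast_eq_zero, Nat.cast_zero]
      rfl
    rw [h4] at h2
    exact (add_right_cancel h2).symm
  have hτn : ∀ n : ℕ, (τ ^ n) g = zc ζ (n : ZMod p) * g := by
    intro n
    induction n with
    | zero => rw [pow_zero, Nat.cast_zero, zc_zero, one_mul]; rfl
    | succ n ih =>
      rw [pow_succ', AlgEquiv.mul_apply, ih, map_mul, hτg, map_zc τ (hfix τ hτ), ← mul_assoc,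
        ← zc_add h1ζ]
      push_cast
      rfl
  refine ⟨g, ha, fun u hu => ?_⟩
  -- reduce to the kernel
  set n := (f u).val with hn
  have hfn : ((n : ℕ) : ZMod p) = f u := by rw [hn, ZMod.natCast_val, ZMod.cast_id]
  have hw : (τ ^ n)⁻¹ * u ∈ W := by
    refine ⟨Q.mul_mem (Q.inv_mem (Q.pow_mem hτ _)) hu, ?_⟩
    rw [HP.mul p hf (Q.inv_mem (Q.pow_mem hτ _)) hu, HP.inv p hf (Q.pow_mem hτ _),
      HP.pow p hf hτ, hτ1, mul_one, hfn, neg_add_cancel]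
  have hWg : ∀ v ∈ W, v g = g := by
    intro v hv
    rw [hg', map_sum]
    refine Finset.sum_congr rfl fun i _ => ?_
    rw [map_mul, map_zc v (hfix v hv.1)]
    congr 1
    have h1 : (τ ^ i)⁻¹ * v * τ ^ i ∈ W := by
      have ht := Q.pow_mem hτ i
      refine ⟨Q.mul_mem (Q.mul_mem (Q.inv_mem ht) hv.1) ht, ?_⟩
      rw [HP.mul p hf (Q.mul_mem (Q.inv_mem ht) hv.1) ht, HP.mul p hf (Q.inv_mem ht) hv.1,
        HP.inv p hf ht, hv.2]
      ring
    have h2 := haW _ h1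
    have h3 : v * τ ^ i = τ ^ i * ((τ ^ i)⁻¹ * v * τ ^ i) := by group
    rw [← AlgEquiv.mul_apply, h3, AlgEquiv.mul_apply, h2]
  have h5 : u = τ ^ n * ((τ ^ n)⁻¹ * u) := by group
  conv_lhs => rw [h5]
  rw [AlgEquiv.mul_apply, hWg _ hw, hτn, hfn]

end Pool.Agent.L7h60.SG
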