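import Mathlib
import Pool.Agent.L7h48.SG.Stm
import Pool.Agent.K7.H60.PS.F2

/-!
# Project SG (helper48, MP_b4b3cb_nt): [F2], the cocycles of the decomposition group extend
-/

set_option autoImplicit false
set_option linter.unusedSectionVars false

namespace Pool.Agent.L7h60.SG.F2

open Matrix IsLocalRing Filter Topology
open Pool.Agent.L7h48.SG
open Pool.Agent.Y715.Gi (QB KK GK)
open Pool.Agent.Y715.Nr Pool.Agent.W237.RK
open Pool.Agent.Y715.Df (Cmp)
open Pool.Agent.Z384 (II DD DDs)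
open Pool.Agent.K7.H60.PS (Aff red red_val eventually_mem continuous_of_eventually
  eq_zero_of_forall_mem)

theorem one_add_pow_sub_one_mem {R : Type*} [CommRing R] {p : ℕ} (J : Ideal R)
    (h2 : (p : R) ∈ J) {x : R} (hx : x ∈ J) (i : ℕ) : (1 + x) ^ p ^ i - 1 ∈ J ^ (i + 1) := by
  induction i with
  | zero => simpa using hx
  | succ i ih =>
    set y := (1 + x) ^ p ^ i with hy
    have hyJ : y - 1 ∈ J := by
      have := Ideal.pow_le_pow_right (I := J) (show 1 ≤ i + 1 by omega) ih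
      simpa using this
    have h1 : (1 + x) ^ p ^ (i + 1) - 1 = (y - 1) * ∑ j ∈ Finset.range p, y ^ j := by
      rw [mul_comm, geom_sum_mul, pow_succ, pow_mul]
    rw [h1, pow_succ]
    refine Ideal.mul_mem_mul ih ?_
    have h3 : ∑ j ∈ Finset.range p, y ^ j = ∑ j ∈ Finset.range p, (y ^ j - 1) + (p : R) := by
      rw [Finset.sum_sub_distrib, Finset.sum_const, Finset.card_range, nsmul_eq_mul, mul_one,
        sub_add_cancel]
    rw [h3]
    refine J.add_mem (J.sum_mem fun j _ => ?_) h2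
    obtain ⟨q, hq⟩ := sub_dvd_pow_sub_pow y 1 j
    rw [one_pow] at hq
    rw [hq]
    exact J.mul_mem_right _ hyJ

theorem one_add_pow_eq_one {S : Type*} [Ring S] {p c d : ℕ} (h2 : (p : S) ^ c = 0) {N : S}
    (hN : N ^ d = 0) : (1 + N) ^ p ^ (c + d) = 1 := by
  let f : Polynomial ℤ →ₐ[ℤ] S := Polynomial.aeval N
  let I : Ideal (Polynomial ℤ) := Ideal.span {(p : Polynomial ℤ)}
  let J : Ideal (Polynomial ℤ) := Ideal.span {Polynomial.X}
  have h1 : (1 + (Polynomial.X : Polynomial ℤ)) ^ p ^ (c + d) - 1 ∈ (I ⊔ J) ^ (c + d + 1) :=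
    one_add_pow_sub_one_mem _ (Ideal.mem_sup_left (Ideal.mem_span_singleton_self _))
      (Ideal.mem_sup_right (Ideal.mem_span_singleton_self _)) _
  have h3 : (I ⊔ J) ^ (c + d) ≤ RingHom.ker f.toRingHom := by
    refine le_trans Ideal.sup_pow_add_le_pow_sup_pow (sup_le ?_ ?_)
    · rw [Ideal.span_singleton_pow, Ideal.span_singleton_le_iff_mem, RingHom.mem_ker]
      have h5 : f.toRingHom (p : Polynomial ℤ) = p := map_natCast f p
      rw [map_pow, h5, h2]
    · rw [Ideal.span_singleton_pow, Ideal.span_singleton_le_iff_mem, RingHom.mem_ker]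
      simpa [f] using hN
  have h4 := h3 (Ideal.pow_le_pow_right (Nat.le_succ _) h1)
  rw [RingHom.mem_ker] at h4
  have h5 : f.toRingHom ((1 + (Polynomial.X : Polynomial ℤ)) ^ p ^ (c + d) - 1)
      = (1 + N) ^ p ^ (c + d) - 1 := by
    simp [f]
  rw [h5] at h4
  exact sub_eq_zero.1 h4

theorem Aff_pow_eq_one {n : ℕ} {B : Type} [CommRing B] {x : Aff n B} {p a b : ℕ}
    (hx : x.g ^ p ^ a = 1) (hb : (p : B) ^ b = 0) : x ^ p ^ (a + b) = 1 := by
  rw [pow_add, pow_mul]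
  have h1 : (x ^ p ^ a).g = 1 := by
    rw [← Aff.lin_apply, map_pow, Aff.lin_apply, hx]
  obtain ⟨h2, h3⟩ := Aff.pow_of_lin h1 (p ^ b)
  apply Aff.ext
  · rw [h2]
    push_cast
    rw [hb, zero_smul]
    rfl
  · rw [h3]
    rfl

/-- Residually unipotent matrices have `p`-power order modulo the powers of the maximal ideal. -/
theorem red_pow_eq_one {A : Type} [CommRing A] [IsLocalRing A] {n p : ℕ}
    (h2 : (p : A) ∈ maximalIdeal A) (k : ℕ) (g : GL (Fin n) A)
    (hg : ∃ m : ℕ, ∀ i j, (((g : Matrix (Fin n) (Fin n) A) - 1) ^ m) i j ∈ maximalIdeal A) :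
    ∃ a : ℕ, red (maximalIdeal A ^ k) g ^ p ^ a = 1 := by
  obtain ⟨m, hm⟩ := hg
  set q : Matrix (Fin n) (Fin n) A →+* Matrix (Fin n) (Fin n) (A ⧸ maximalIdeal A ^ k) :=
    (Ideal.Quotient.mk (maximalIdeal A ^ k)).mapMatrix with hq
  have hker : ∀ (j : ℕ) (M : Matrix (Fin n) (Fin n) A), (∀ i i', M i i' ∈ maximalIdeal A) →
      ∀ i i', (M ^ j) i i' ∈ maximalIdeal A ^ j := by
    intro j M hM
    induction j with
    | zero => intro i i'; simp
    | succ j ih =>
      intro i i'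
      rw [pow_succ, pow_succ, Matrix.mul_apply]
      exact Ideal.sum_mem _ fun t _ => Ideal.mul_mem_mul (ih i t) (hM t i')
  have hN : (q ((g : Matrix (Fin n) (Fin n) A) - 1)) ^ (m * k) = 0 := by
    rw [pow_mul, ← map_pow, ← map_pow]
    ext i j
    exact Ideal.Quotient.eq_zero_iff_mem.2 (hker k _ hm i j)
  have h3 : (p : Matrix (Fin n) (Fin n) (A ⧸ maximalIdeal A ^ k)) ^ k = 0 := by
    have h4 : (p : A ⧸ maximalIdeal A ^ k) ^ k = 0 := by
      have := Ideal.Quotient.eq_zero_iff_mem.2 (Ideal.pow_mem_pow h2 k)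
      rw [map_pow, map_natCast] at this
      exact this
    have h5 : (p : Matrix (Fin n) (Fin n) (A ⧸ maximalIdeal A ^ k))
        = Matrix.scalar (Fin n) (p : A ⧸ maximalIdeal A ^ k) := (map_natCast _ p).symm
    rw [h5, ← map_pow, h4, map_zero]
  refine ⟨k + m * k, ?_⟩
  apply Units.ext
  have h6 := one_add_pow_eq_one h3 hN
  rw [map_sub, map_one, add_sub_cancel] at h6
  rw [Units.val_pow_eq_pow_val, red_val, Units.val_one]
  exact h6

section

variable {A : Type} [CommRing A] [IsLocalRing A] [IsNoetherianRing A] [TopologicalSpace A]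
  [IsTopologicalRing A]

theorem red_lc (hA : IsAdic (maximalIdeal A)) {n : ℕ} {X : Type} [TopologicalSpace X]
    (ρ : X → GL (Fin n) A)
    (hρ : ∀ i j, Continuous fun σ => (ρ σ : Matrix (Fin n) (Fin n) A) i j) (k : ℕ) :
    IsLocallyConstant (fun σ => red (maximalIdeal A ^ k) (ρ σ)) := by
  rw [IsLocallyConstant.iff_eventually_eq]
  intro σ
  have h3 : ∀ᶠ τ in 𝓝 σ, ∀ i j, (ρ τ : Matrix (Fin n) (Fin n) A) i j -
      (ρ σ : Matrix (Fin n) (Fin n) A) i j ∈ maximalIdeal A ^ k := by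
    rw [eventually_all]
    intro i
    rw [eventually_all]
    intro j
    exact eventually_mem hA (hρ i j) k σ
  filter_upwards [h3] with τ hτ
  apply Units.ext
  ext i j
  exact (Ideal.Quotient.mk_eq_mk_iff_sub_mem _ _).2 (hτ i j)

theorem TE_ker {p : ℕ} [Fact p.Prime] {s : QB} {ι₀ : QB →ₐ[ℚ] PadicAlgCl p}
    {𝓛 : Subgroup (GK s)} (hlev : Lev p 𝓛 ι₀) (hA : IsAdic (maximalIdeal A))
    (hF : Finite (ResidueField A)) (h2 : (p : A) ∈ maximalIdeal A) {n : ℕ}
    (ρ : GK s →* GL (Fin n) A) (hρ : Rp p 𝓛 ρ) (k : ℕ) :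
    TE p 𝓛 (((red (maximalIdeal A ^ k)).comp ρ).ker ⊓ 𝓛) := by
  have hfin : Finite (A ⧸ maximalIdeal A ^ k) := by
    have : Finite (A ⧸ maximalIdeal A) := hF
    exact Ideal.finite_quotient_pow (IsNoetherian.noetherian (maximalIdeal A)) k
  have hlc := red_lc hA (fun σ => ρ σ) hρ.cont k
  have hno := hlev.normal
  refine ⟨?_, inferInstance, inf_le_right, ?_, ?_⟩
  · exact IsOpen.inter (hlc {1}) hlev.isOpen
  · rw [Subgroup.inf_relIndex_right, Subgroup.relIndex_ker]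
    have hP : IsPGroup p (𝓛.map ((red (maximalIdeal A ^ k)).comp ρ)) := by
      rintro ⟨_, σ, hσ, rfl⟩
      obtain ⟨a, ha⟩ := red_pow_eq_one h2 k (ρ σ) (hρ.unipotent σ hσ)
      refine ⟨a, ?_⟩
      ext1
      exact ha
    have : Finite (GL (Fin n) (A ⧸ maximalIdeal A ^ k)) := inferInstance
    exact IsPGroup.iff_card.1 hP
  · intro σ hσ
    refine ⟨?_, hlev.unr σ hσ⟩
    show σ ∈ ((red (maximalIdeal A ^ k)).comp ρ).ker
    rw [MonoidHom.mem_ker, MonoidHom.comp_apply, hρ.unramified σ hσ, map_one]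

/-- the representation is trivial on `Nf` -/
theorem rp_Nf {p : ℕ} [Fact p.Prime] {s : QB} {ι₀ : QB →ₐ[ℚ] PadicAlgCl p}
    {𝓛 : Subgroup (GK s)} (hlev : Lev p 𝓛 ι₀) (hA : IsAdic (maximalIdeal A))
    (hc : IsAdicComplete (maximalIdeal A) A)
    (hF : Finite (ResidueField A)) (h2 : (p : A) ∈ maximalIdeal A) {n : ℕ}
    (ρ : GK s →* GL (Fin n) A) (hρ : Rp p 𝓛 ρ) : ∀ σ ∈ Nf p 𝓛, ρ σ = 1 := by
  intro σ hσ
  have h3 : ∀ k : ℕ, red (maximalIdeal A ^ k) (ρ σ) = 1 := by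
    intro k
    have h4 : Nf p 𝓛 ≤ ((red (maximalIdeal A ^ k)).comp ρ).ker ⊓ 𝓛 :=
      sInf_le (TE_ker hlev hA hF h2 ρ hρ k)
    exact (h4 hσ).1
  apply Units.ext
  ext i j
  refine sub_eq_zero.1 (eq_zero_of_forall_mem (maximalIdeal A) fun k => ?_)
  have h4 := congrArg (fun g : GL (Fin n) (A ⧸ maximalIdeal A ^ k) =>
    (g : Matrix (Fin n) (Fin n) (A ⧸ maximalIdeal A ^ k)) i j) (h3 k)
  simp only [red_val, Matrix.map_apply, Units.val_one] at h4
  rw [← Ideal.Quotient.mk_eq_mk_iff_sub_mem, h4, Units.val_one, Matrix.one_apply, Matrix.one_apply]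
  split_ifs <;> simp

/-- the cocycle vanishes on `DDs ∩ Nf` -/
theorem l_Nf (hF1 : S_F1) {p : ℕ} [Fact p.Prime] {s : QB} {d : ℕ} (hspl : Spl p s d)
    {ι₀ : QB →ₐ[ℚ] PadicAlgCl p}
    {𝓛 : Subgroup (GK s)} (hlev : Lev p 𝓛 ι₀) (hA : IsAdic (maximalIdeal A))
    (hc : IsAdicComplete (maximalIdeal A) A)
    (hF : Finite (ResidueField A)) (h2 : (p : A) ∈ maximalIdeal A) {n : ℕ}
    (ρ : GK s →* GL (Fin n) A) (hρ : Rp p 𝓛 ρ) (l : DDs (s := s) ι₀ → Fin n → A)
    (hl : Continuous l) (hcc : ∀ δ δ', l (δ * δ') = l δ +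
        (ρ (δ : GK s) : Matrix (Fin n) (Fin n) A) *ᵥ l δ')
    (δ : DDs (s := s) ι₀) (hδ : (δ : GK s) ∈ Nf p 𝓛) : l δ = 0 := by
  funext t
  refine eq_zero_of_forall_mem (maximalIdeal A) fun k => ?_
  have hfin : Finite (A ⧸ maximalIdeal A ^ k) := by
    have : Finite (A ⧸ maximalIdeal A) := hF
    exact Ideal.finite_quotient_pow (IsNoetherian.noetherian (maximalIdeal A)) k
  have hl1 : l 1 = 0 := by
    have := hcc 1 1
    simpa using this
  have hmv : ∀ (M : Matrix (Fin n) (Fin n) A) (v : Fin n → A) (i),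
      (M.map (Ideal.Quotient.mk (maximalIdeal A ^ k)) *ᵥ
        (fun j => Ideal.Quotient.mk (maximalIdeal A ^ k) (v j))) i
        = Ideal.Quotient.mk (maximalIdeal A ^ k) ((M *ᵥ v) i) := by
    intro M v i
    exact (RingHom.map_mulVec (Ideal.Quotient.mk (maximalIdeal A ^ k)) M v i).symm
  let r : DDs (s := s) ι₀ →* Aff n (A ⧸ maximalIdeal A ^ k) :=
    { toFun := fun δ => ⟨fun i => Ideal.Quotient.mk (maximalIdeal A ^ k) (l δ i),
        red (maximalIdeal A ^ k) (ρ δ)⟩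
      map_one' := by
        apply Aff.ext
        · funext i
          simp only [hl1, Pi.zero_apply, map_zero]
          rfl
        · simp
      map_mul' := fun x y => by
        apply Aff.ext
        · funext i
          simp only [hcc, Pi.add_apply, map_add, Aff.mul_v]
          congr 1
          exact (hmv _ _ i).symm
        · simp }
  have hrl : IsLocallyConstant (fun δ => r δ) := by
    rw [IsLocallyConstant.iff_eventually_eq]
    intro δ
    have h1 : ∀ᶠ y in 𝓝 δ, ∀ i, l y i - l δ i ∈ maximalIdeal A ^ k := by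
      rw [eventually_all]
      intro i
      exact eventually_mem hA ((continuous_apply i).comp hl) k δ
    have h3 := (IsLocallyConstant.iff_eventually_eq _).1
      (red_lc hA (fun δ : DDs (s := s) ι₀ => ρ δ)
        (fun i j => (hρ.cont i j).comp continuous_subtype_val) k) δ
    filter_upwards [h1, h3] with y hy hy'
    apply Aff.ext
    · funext i
      exact (Ideal.Quotient.mk_eq_mk_iff_sub_mem _ _).2 (hy i)
    · exact hy'
  have hpk : (p : A ⧸ maximalIdeal A ^ k) ^ k = 0 := by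
    have := Ideal.Quotient.eq_zero_iff_mem.2 (Ideal.pow_mem_pow h2 k)
    rw [map_pow, map_natCast] at this
    exact this
  have h5 := hF1 p s d hspl ι₀ 𝓛 hlev (Aff n (A ⧸ maximalIdeal A ^ k)) r hrl (fun δ hδ => by
    obtain ⟨a, ha⟩ := red_pow_eq_one h2 k (ρ δ) (hρ.unipotent δ hδ)
    exact ⟨a + k, Aff_pow_eq_one (x := r δ) ha hpk⟩) δ hδ
  have h6 : Ideal.Quotient.mk (maximalIdeal A ^ k) (l δ t) = 0 :=
    congrFun (congrArg Aff.v h5) t
  exact Ideal.Quotient.eq_zero_iff_mem.1 h6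

end

/-- **[F2]** -/
theorem s_F2 (hE0 : S_E0) (hE1 : S_E1) (hF1 : S_F1) : S_F2 := by
  classical
  intro p _ s d hspl ι₀ 𝓛 hlev A _ _ _ _ _ hA hc hF h2 n ρ hρ
  have hρN := rp_Nf hlev hA hc hF h2 ρ hρ
  refine ⟨hρN, fun l hl hcc => ?_⟩
  have hlN := l_Nf hF1 hspl hlev hA hc hF h2 ρ hρ l hl hcc
  obtain ⟨-, -, -, -, -, -, -, -, -, -, -, hdec⟩ := hE0 p s d hspl ι₀ 𝓛 hlev
  obtain ⟨r, hr, -, hrange⟩ := hE1 p s d hspl ι₀
  have hno : (Nf p 𝓛).Normal := inferInstance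
  have hl1 : l 1 = 0 := by
    have := hcc 1 1
    simpa using this
  have hdec' : ∀ g : GK s, ∃ δ : DDs (s := s) ι₀, (δ : GK s)⁻¹ * g ∈ Nf p 𝓛 := by
    intro g
    obtain ⟨δ, h1, h2⟩ := hdec g
    exact ⟨⟨δ, h1⟩, h2⟩
  choose e he using hdec'
  -- the value depends only on the coset
  have hwd : ∀ (g : GK s) (δ : DDs (s := s) ι₀), (δ : GK s)⁻¹ * g ∈ Nf p 𝓛 → l (e g) = l δ := by
    intro g δ hδ
    have h1 : e g = δ * (δ⁻¹ * e g) := by group
    have h3 : ((δ⁻¹ * e g : DDs (s := s) ι₀) : GK s) ∈ Nf p 𝓛 := by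
      have h4 : ((δ⁻¹ * e g : DDs (s := s) ι₀) : GK s) =
          ((δ : GK s)⁻¹ * g) * (((e g : DDs (s := s) ι₀) : GK s)⁻¹ * g)⁻¹ := by
        push_cast
        group
      rw [h4]
      exact mul_mem hδ (inv_mem (he g))
    rw [h1, hcc, hlN _ h3, Matrix.mulVec_zero, add_zero]
  have hρe : ∀ g : GK s, ρ g = ρ (e g) := by
    intro g
    have h1 := hρN _ (he g)
    rw [map_mul, map_inv, inv_mul_eq_one] at h1
    exact h1.symm
  refine ⟨fun g => l (e g), ?_, ?_, ?_, ?_⟩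
  · -- continuity
    have hcl : IsClosed ((Nf p 𝓛 : Subgroup (GK s)) : Set (GK s)) := by
      rw [Nf, Subgroup.coe_sInf]
      exact isClosed_biInter fun N hN => Subgroup.isClosed_of_isOpen N (TE.isOpen hN)
    have hcomp : CompactSpace (Nf p 𝓛) := isCompact_iff_compactSpace.1 hcl.isCompact
    set m : Au p × Nf p 𝓛 → GK s := fun x => r x.1 * (x.2 : GK s) with hm
    have hmc : Continuous m := (hr.comp continuous_fst).mul
      (continuous_subtype_val.comp continuous_snd)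
    have hms : Function.Surjective m := by
      intro g
      have h1 : ((e g : DDs (s := s) ι₀) : GK s) ∈ r.range := by
        rw [hrange]
        exact (e g).2
      obtain ⟨τ, hτ⟩ := h1
      refine ⟨(τ, ⟨_, he g⟩), ?_⟩
      rw [hm]
      simp only [hτ]
      group
    have hmq : Topology.IsQuotientMap m := hmc.isClosedMap.isQuotientMap hmc hms
    rw [hmq.continuous_iff]
    have hr' : Continuous fun τ : Au p => (⟨r τ, by rw [← hrange]; exact ⟨τ, rfl⟩⟩ :
        DDs (s := s) ι₀) := Continuous.subtype_mk hr _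
    have h1 : (fun g => l (e g)) ∘ m = fun x : Au p × Nf p 𝓛 =>
        l ⟨r x.1, by rw [← hrange]; exact ⟨x.1, rfl⟩⟩ := by
      funext x
      refine hwd _ _ ?_
      rw [hm]
      simp only [inv_mul_cancel_left]
      exact x.2.2
    rw [h1]
    exact hl.comp (hr'.comp continuous_fst)
  · intro σ τ
    simp only
    rw [hwd (σ * τ) (e σ * e τ), hcc, hρe σ]
    have h1 : ((e σ * e τ : DDs (s := s) ι₀) : GK s)⁻¹ * (σ * τ) =
        ((e τ : GK s)⁻¹ * ((e σ : GK s)⁻¹ * σ) * ((e τ : GK s)⁻¹)⁻¹) * ((e τ : GK s)⁻¹ * τ) := by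
      push_cast
      group
    rw [h1]
    exact mul_mem (hno.conj_mem _ (he σ) _) (he τ)
  · intro σ hσ
    simp only
    rw [hwd σ 1 (by simpa using hσ), hl1]
  · intro δ
    simp only
    exact hwd _ δ (by rw [inv_mul_cancel]; exact one_mem _)

end Pool.Agent.L7h60.SG.F2

/-- **[F2]** -/
theorem Pool.Agent.L7h60.SG.s_F2 (hE0 : Pool.Agent.L7h48.SG.S_E0) (hE1 : Pool.Agent.L7h48.SG.S_E1)
    (hF1 : Pool.Agent.L7h48.SG.S_F1) : Pool.Agent.L7h48.SG.S_F2 :=
  Pool.Agent.L7h60.SG.F2.s_F2 hE0 hE1 hF1
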