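import Mathlib
import Pool.Agent.H639R3.Cyc

/-!
# Project SG (helper48, MP_b4b3cb_nt): [H1], part a

For a polynomial `g` with coefficients in `ℤ_p` and `g(1)` a unit, the product of the values of `g`
at the primitive `p²`-th roots of unity is congruent to one modulo `p²`.
-/

set_option autoImplicit false
set_option linter.unusedSectionVars false

namespace Pool.Agent.L7h60.SG.H1

open Polynomial

section ultra

variable {F : Type*} [NormedField F] [IsUltrametricDist F]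

/-- all coefficients have norm at most `r` -/
def Bd (r : ℝ) (f : F[X]) : Prop := ∀ n, ‖f.coeff n‖ ≤ r

lemma norm_add_le' {x y : F} {r : ℝ} (hx : ‖x‖ ≤ r) (hy : ‖y‖ ≤ r) : ‖x + y‖ ≤ r :=
  (IsUltrametricDist.norm_add_le_max x y).trans (max_le hx hy)

lemma norm_sub_le' {x y : F} {r : ℝ} (hx : ‖x‖ ≤ r) (hy : ‖y‖ ≤ r) : ‖x - y‖ ≤ r := by
  rw [sub_eq_add_neg]
  exact norm_add_le' hx (by rwa [norm_neg])

lemma Bd.mul {a b : ℝ} {f g : F[X]} (hf : Bd a f) (hg : Bd b g) (ha : 0 ≤ a) (hb : 0 ≤ b) :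
    Bd (a * b) (f * g) := by
  intro n
  rw [coeff_mul]
  refine IsUltrametricDist.norm_sum_le_of_forall_le_of_nonneg (by positivity) fun i _ => ?_
  rw [norm_mul]
  exact mul_le_mul (hf _) (hg _) (norm_nonneg _) ha

lemma Bd.add {r : ℝ} {f g : F[X]} (hf : Bd r f) (hg : Bd r g) : Bd r (f + g) := by
  intro n
  rw [coeff_add]
  exact norm_add_le' (hf n) (hg n)

lemma Bd.sub {r : ℝ} {f g : F[X]} (hf : Bd r f) (hg : Bd r g) : Bd r (f - g) := by
  intro n
  rw [coeff_sub]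
  exact norm_sub_le' (hf n) (hg n)

lemma Bd.mono {r r' : ℝ} {f : F[X]} (hf : Bd r f) (h : r ≤ r') : Bd r' f :=
  fun n => (hf n).trans h

lemma Bd.prod {ι : Type*} (s : Finset ι) (f : ι → F[X]) (h : ∀ i ∈ s, Bd 1 (f i)) :
    Bd 1 (∏ i ∈ s, f i) := by
  classical
  induction s using Finset.induction_on with
  | empty =>
    intro n
    rw [Finset.prod_empty, coeff_one]
    split_ifs
    · rw [norm_one]
    · rw [norm_zero]; exact zero_le_one
  | insert a s ha ih =>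
    rw [Finset.prod_insert ha]
    have h1 := (h a (Finset.mem_insert_self a s)).mul
      (ih fun i hi => h i (Finset.mem_insert_of_mem hi)) zero_le_one zero_le_one
    rwa [one_mul] at h1

lemma Bd.eval {r : ℝ} (hr : 0 ≤ r) {f : F[X]} (hf : Bd r f) {x : F} (hx : ‖x‖ ≤ 1) :
    ‖f.eval x‖ ≤ r := by
  rw [eval_eq_sum_range]
  refine IsUltrametricDist.norm_sum_le_of_forall_le_of_nonneg hr fun i _ => ?_
  rw [norm_mul, norm_pow]
  calc ‖f.coeff i‖ * ‖x‖ ^ i ≤ r * 1 :=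
        mul_le_mul (hf i) (pow_le_one₀ (norm_nonneg _) hx) (by positivity) hr
    _ = r := mul_one r

lemma prod_close {ι : Type*} (s : Finset ι) (f g : ι → F[X]) {ρ : ℝ} (hρ : 0 ≤ ρ)
    (hf : ∀ i ∈ s, Bd 1 (f i)) (hg : ∀ i ∈ s, Bd 1 (g i)) (h : ∀ i ∈ s, Bd ρ (f i - g i)) :
    Bd ρ (∏ i ∈ s, f i - ∏ i ∈ s, g i) := by
  classical
  induction s using Finset.induction_on with
  | empty =>
    intro n
    simp [hρ]
  | insert a s ha ih =>
    rw [Finset.prod_insert ha, Finset.prod_insert ha]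
    have hfs : ∀ i ∈ s, Bd 1 (f i) := fun i hi => hf i (Finset.mem_insert_of_mem hi)
    have hgs : ∀ i ∈ s, Bd 1 (g i) := fun i hi => hg i (Finset.mem_insert_of_mem hi)
    have h1 := ih hfs hgs fun i hi => h i (Finset.mem_insert_of_mem hi)
    have h2 : f a * ∏ i ∈ s, f i - g a * ∏ i ∈ s, g i =
        (f a - g a) * ∏ i ∈ s, f i + g a * (∏ i ∈ s, f i - ∏ i ∈ s, g i) := by ring
    rw [h2]
    refine Bd.add ?_ ?_
    · have h3 := (h a (Finset.mem_insert_self a s)).mul (Bd.prod s f hfs) hρ zero_le_one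
      rwa [mul_one] at h3
    · have h3 := (hg a (Finset.mem_insert_self a s)).mul h1 zero_le_one hρ
      rwa [one_mul] at h3

/-- the expansion of a product up to first order -/
lemma first_order {ι : Type*} [DecidableEq ι] (s : Finset ι) (a b : ι → F) {r : ℝ} (hr : 0 ≤ r)
    (hr1 : r ≤ 1) (ha : ∀ i ∈ s, ‖a i‖ ≤ 1) (hb : ∀ i ∈ s, ‖b i‖ ≤ r) :
    ‖∏ i ∈ s, (a i + b i) - ∏ i ∈ s, a i - ∑ i ∈ s, b i * ∏ j ∈ s.erase i, a j‖ ≤ r ^ 2 := by
  induction s using Finset.induction_on with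
  | empty => simp; positivity
  | insert k s hk ih =>
    have has : ∀ i ∈ s, ‖a i‖ ≤ 1 := fun i hi => ha i (Finset.mem_insert_of_mem hi)
    have hbs : ∀ i ∈ s, ‖b i‖ ≤ r := fun i hi => hb i (Finset.mem_insert_of_mem hi)
    have h1 := ih has hbs
    rw [Finset.prod_insert hk, Finset.prod_insert hk, Finset.sum_insert hk,
      Finset.erase_insert hk]
    have h2 : ∑ i ∈ s, b i * ∏ j ∈ (insert k s).erase i, a j =
        a k * ∑ i ∈ s, b i * ∏ j ∈ s.erase i, a j := by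
      rw [Finset.mul_sum]
      refine Finset.sum_congr rfl fun i hi => ?_
      have hki : k ≠ i := fun h => hk (h ▸ hi)
      rw [Finset.erase_insert_of_ne hki, Finset.prod_insert (fun h => hk (Finset.mem_of_mem_erase h))]
      ring
    rw [h2]
    set A := ∏ i ∈ s, a i
    set P := ∏ i ∈ s, (a i + b i)
    set S := ∑ i ∈ s, b i * ∏ j ∈ s.erase i, a j
    have h3 : (a k + b k) * P - a k * A - (b k * A + a k * S) =
        a k * (P - A - S) + (b k * (P - A - S) + b k * S) := by ring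
    rw [h3]
    have hprod : ∀ t ⊆ s, ‖∏ j ∈ t, a j‖ ≤ 1 := by
      intro t ht
      rw [norm_prod]
      exact Finset.prod_le_one (fun j _ => norm_nonneg _) fun j hj => has j (ht hj)
    have hS : ‖S‖ ≤ r := by
      refine IsUltrametricDist.norm_sum_le_of_forall_le_of_nonneg hr fun i hi => ?_
      rw [norm_mul]
      calc ‖b i‖ * ‖∏ j ∈ s.erase i, a j‖ ≤ r * 1 :=
            mul_le_mul (hbs i hi) (hprod _ (Finset.erase_subset _ _)) (norm_nonneg _) hr
        _ = r := mul_one r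
    have hak := ha k (Finset.mem_insert_self k s)
    have hbk := hb k (Finset.mem_insert_self k s)
    refine norm_add_le' ?_ (norm_add_le' ?_ ?_)
    · rw [norm_mul]
      calc ‖a k‖ * ‖P - A - S‖ ≤ 1 * r ^ 2 := mul_le_mul hak h1 (norm_nonneg _) zero_le_one
        _ = r ^ 2 := one_mul _
    · rw [norm_mul]
      calc ‖b k‖ * ‖P - A - S‖ ≤ 1 * r ^ 2 :=
            mul_le_mul (hbk.trans hr1) h1 (norm_nonneg _) zero_le_one
        _ = r ^ 2 := one_mul _
    · rw [norm_mul, sq]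
      exact mul_le_mul hbk hS (norm_nonneg _) hr

end ultra

section roots

variable (p : ℕ) [Fact p.Prime]

/-- the `p`-th roots of unity -/
noncomputable def S1 : Finset (PadicAlgCl p) := nthRootsFinset p (1 : PadicAlgCl p)

/-- the `p²`-th roots of unity -/
noncomputable def S2 : Finset (PadicAlgCl p) := nthRootsFinset (p ^ 2) (1 : PadicAlgCl p)

variable {p}

lemma mem_S1 {x : PadicAlgCl p} : x ∈ S1 p ↔ x ^ p = 1 :=
  mem_nthRootsFinset (Fact.out : p.Prime).pos _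

lemma mem_S2 {x : PadicAlgCl p} : x ∈ S2 p ↔ x ^ p ^ 2 = 1 :=
  mem_nthRootsFinset (pow_pos (Fact.out : p.Prime).pos 2) _

lemma norm_root {x : PadicAlgCl p} {n : ℕ} (hn : n ≠ 0) (h : x ^ n = 1) : ‖x‖ = 1 := by
  have h1 : ‖x‖ ^ n = 1 := by rw [← norm_pow, h, norm_one]
  exact (pow_eq_one_iff_of_nonneg (norm_nonneg _) hn).1 h1

lemma S1_norm {x : PadicAlgCl p} (h : x ∈ S1 p) : ‖x‖ = 1 :=
  norm_root (Fact.out : p.Prime).ne_zero (mem_S1.1 h)

lemma S1_ne {x : PadicAlgCl p} (h : x ∈ S1 p) : x ≠ 0 := by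
  rintro rfl
  have := S1_norm h
  rw [norm_zero] at this
  exact zero_ne_one this

lemma S1_mul {x y : PadicAlgCl p} (hx : x ∈ S1 p) (hy : y ∈ S1 p) : x * y ∈ S1 p := by
  rw [mem_S1] at *
  rw [mul_pow, hx, hy, one_mul]

lemma S1_inv {x : PadicAlgCl p} (hx : x ∈ S1 p) : x⁻¹ ∈ S1 p := by
  rw [mem_S1] at *
  rw [inv_pow, hx, inv_one]

lemma S1_one : (1 : PadicAlgCl p) ∈ S1 p := by
  rw [mem_S1, one_pow]

lemma norm_p : ‖((p : ℕ) : PadicAlgCl p)‖ = (p : ℝ)⁻¹ := by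
  have h1 : ((p : ℕ) : PadicAlgCl p) = algebraMap ℚ_[p] (PadicAlgCl p) (p : ℚ_[p]) := by
    rw [map_natCast]
  rw [h1, PadicAlgCl.norm_extends, Padic.norm_p]

lemma norm_nat (n : ℕ) : ‖((n : ℕ) : PadicAlgCl p)‖ ≤ 1 := by
  have h1 : ((n : ℕ) : PadicAlgCl p) = algebraMap ℚ_[p] (PadicAlgCl p) (n : ℚ_[p]) := by
    rw [map_natCast]
  rw [h1, PadicAlgCl.norm_extends]
  exact_mod_cast PadicInt.norm_le_one (n : ℤ_[p])

lemma norm_int (n : ℤ) : ‖((n : ℤ) : PadicAlgCl p)‖ ≤ 1 := by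
  have h1 : ((n : ℤ) : PadicAlgCl p) = algebraMap ℚ_[p] (PadicAlgCl p) (n : ℚ_[p]) := by
    rw [map_intCast]
  rw [h1, PadicAlgCl.norm_extends]
  exact_mod_cast PadicInt.norm_le_one (n : ℤ_[p])

lemma p_inv_pos : 0 < (p : ℝ)⁻¹ := inv_pos.2 (by exact_mod_cast (Fact.out : p.Prime).pos)

lemma p_inv_lt : (p : ℝ)⁻¹ < 1 := by
  have h1 : (1 : ℝ) < p := by exact_mod_cast (Fact.out : p.Prime).one_lt
  exact inv_lt_one_of_one_lt₀ h1

/-- the `p`-th roots of unity are congruent to one -/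
lemma S1_close (hp : p ≠ 2) {x : PadicAlgCl p} (hx : x ∈ S1 p) : ‖x - 1‖ < 1 := by
  have hpp : p.Prime := Fact.out
  have hodd := hpp.odd_of_ne_two hp
  obtain ⟨r, hr⟩ := exists_add_pow_prime_eq hpp (X : ℤ[X]) (-1)
  have h1 := congrArg (aeval x) hr
  simp only [map_pow, map_add, map_mul, map_neg, map_one, aeval_X, map_natCast] at h1
  rw [mem_S1.1 hx, hodd.neg_one_pow] at h1
  have h2 : ‖aeval x r‖ ≤ 1 := by
    rw [aeval_eq_sum_range]
    refine IsUltrametricDist.norm_sum_le_of_forall_le_of_nonneg zero_le_one fun i _ => ?_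
    rw [zsmul_eq_mul, norm_mul, norm_pow, S1_norm hx, one_pow, mul_one]
    exact norm_int _
  have h3 : ‖x - 1‖ ^ p ≤ (p : ℝ)⁻¹ := by
    rw [← norm_pow, sub_eq_add_neg, h1]
    have h4 : (1 : PadicAlgCl p) + -1 + (p : PadicAlgCl p) * x * -1 * aeval x r =
        (p : PadicAlgCl p) * (-(x * aeval x r)) := by ring
    rw [h4, norm_mul, norm_p, norm_neg, norm_mul, S1_norm hx, one_mul]
    exact mul_le_of_le_one_right p_inv_pos.le h2
  by_contra hcon
  have h5 := one_le_pow₀ (not_lt.1 hcon) (n := p)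
  exact absurd (h5.trans h3) (not_le.2 p_inv_lt)

/-- multiplication by a root of unity permutes -/
lemma S1_prod_mul {M : Type*} [CommMonoid M] (f : PadicAlgCl p → M) {y : PadicAlgCl p}
    (hy : y ∈ S1 p) : ∏ x ∈ S1 p, f (y * x) = ∏ x ∈ S1 p, f x := by
  refine Finset.prod_bij (fun x _ => y * x) (fun x hx => S1_mul hy hx)
    (fun x _ x' _ h => mul_left_cancel₀ (S1_ne hy) h) (fun x hx => ?_) fun x _ => rfl
  exact ⟨y⁻¹ * x, S1_mul (S1_inv hy) hx, by rw [← mul_assoc, mul_inv_cancel₀ (S1_ne hy), one_mul]⟩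

lemma S1_sum_mul (f : PadicAlgCl p → PadicAlgCl p) {y : PadicAlgCl p}
    (hy : y ∈ S1 p) : ∑ x ∈ S1 p, f (y * x) = ∑ x ∈ S1 p, f x := by
  refine Finset.sum_bij (fun x _ => y * x) (fun x hx => S1_mul hy hx)
    (fun x _ x' _ h => mul_left_cancel₀ (S1_ne hy) h) (fun x hx => ?_) fun x _ => rfl
  exact ⟨y⁻¹ * x, S1_mul (S1_inv hy) hx, by rw [← mul_assoc, mul_inv_cancel₀ (S1_ne hy), one_mul]⟩

lemma exists_root : ∃ ε : PadicAlgCl p, IsPrimitiveRoot ε p ∧ ε ∈ S1 p ∧ (S1 p).card = p := by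
  obtain ⟨ε, hε⟩ := HasEnoughRootsOfUnity.exists_primitiveRoot (PadicAlgCl p) p
  exact ⟨ε, hε, mem_S1.2 hε.pow_eq_one, hε.card_nthRootsFinset⟩

/-- power sums of the `p`-th roots of unity -/
lemma S1_powsum (n : ℕ) : ‖∑ x ∈ S1 p, x ^ n‖ ≤ (p : ℝ)⁻¹ := by
  obtain ⟨ε, hε, hεS, hcard⟩ := exists_root (p := p)
  have h1 := S1_sum_mul (p := p) (fun x => x ^ n) hεS
  simp only [mul_pow] at h1
  rw [← Finset.mul_sum] at h1
  by_cases hn : ε ^ n = 1
  · have h2 : ∀ x ∈ S1 p, x ^ n = 1 := by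
      intro x hx
      have : NeZero p := ⟨(Fact.out : p.Prime).ne_zero⟩
      obtain ⟨i, -, rfl⟩ := hε.eq_pow_of_pow_eq_one (mem_S1.1 hx)
      rw [← pow_mul, mul_comm, pow_mul, hn, one_pow]
    rw [Finset.sum_congr rfl h2, Finset.sum_const, hcard, nsmul_eq_mul, mul_one, norm_p]
  · have h2 : ∑ x ∈ S1 p, x ^ n = 0 := by
      have h3 : (ε ^ n - 1) * ∑ x ∈ S1 p, x ^ n = 0 := by rw [sub_mul, one_mul, h1, sub_self]
      exact (mul_eq_zero.1 h3).resolve_left (sub_ne_zero.2 hn)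
    rw [h2, norm_zero]
    exact p_inv_pos.le

lemma Bd.powsum {r : ℝ} (hr : 0 ≤ r) {f : (PadicAlgCl p)[X]} (hf : Bd r f) :
    ‖∑ x ∈ S1 p, f.eval x‖ ≤ r * (p : ℝ)⁻¹ := by
  have h1 : ∑ x ∈ S1 p, f.eval x =
      ∑ n ∈ Finset.range (f.natDegree + 1), f.coeff n * ∑ x ∈ S1 p, x ^ n := by
    simp only [eval_eq_sum_range, Finset.mul_sum]
    rw [Finset.sum_comm]
  rw [h1]
  refine IsUltrametricDist.norm_sum_le_of_forall_le_of_nonneg
    (mul_nonneg hr p_inv_pos.le) fun n _ => ?_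
  rw [norm_mul]
  exact mul_le_mul (hf n) (S1_powsum n) (norm_nonneg _) hr

end roots

section dwork

variable {p : ℕ} [Fact p.Prime]

variable (p) in
/-- `ℤ_p → Ω` -/
noncomputable def φ : ℤ_[p] →+* PadicAlgCl p :=
  (algebraMap ℚ_[p] (PadicAlgCl p)).comp (PadicInt.Coe.ringHom)

lemma norm_φ (x : ℤ_[p]) : ‖φ p x‖ = ‖x‖ := by
  show ‖algebraMap ℚ_[p] (PadicAlgCl p) (x : ℚ_[p])‖ = _
  rw [PadicAlgCl.norm_extends]
  rfl

lemma Bd_map (g : ℤ_[p][X]) : Bd 1 (g.map (φ p)) := by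
  intro n
  rw [coeff_map, norm_φ]
  exact PadicInt.norm_le_one _

/-- `g(c X)` -/
noncomputable def tw (g : (PadicAlgCl p)[X]) (c : PadicAlgCl p) : (PadicAlgCl p)[X] :=
  g.comp (C c * X)

lemma tw_coeff (g : (PadicAlgCl p)[X]) (c : PadicAlgCl p) (n : ℕ) :
    (tw g c).coeff n = g.coeff n * c ^ n := comp_C_mul_X_coeff

lemma tw_eval (g : (PadicAlgCl p)[X]) (c x : PadicAlgCl p) :
    (tw g c).eval x = g.eval (c * x) := by
  unfold tw
  rw [eval_comp, eval_mul, eval_C, eval_X]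

lemma tw_Bd {g : (PadicAlgCl p)[X]} (hg : Bd 1 g) {c : PadicAlgCl p} (hc : ‖c‖ = 1) :
    Bd 1 (tw g c) := by
  intro n
  rw [tw_coeff, norm_mul, norm_pow, hc, one_pow, mul_one]
  exact hg n

/-- `G = ∏ g(ε X)` -/
noncomputable def GG (g : (PadicAlgCl p)[X]) : (PadicAlgCl p)[X] := ∏ e ∈ S1 p, tw g e

lemma GG_eval (g : (PadicAlgCl p)[X]) (x : PadicAlgCl p) :
    (GG g).eval x = ∏ e ∈ S1 p, g.eval (e * x) := by
  unfold GG
  rw [eval_prod]
  exact Finset.prod_congr rfl fun e _ => tw_eval g e x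

lemma GG_tw (g : (PadicAlgCl p)[X]) {c : PadicAlgCl p} (hc : c ∈ S1 p) : tw (GG g) c = GG g := by
  have h1 : tw (GG g) c = ∏ e ∈ S1 p, tw g (c * e) := by
    unfold tw GG
    rw [prod_comp]
    refine Finset.prod_congr rfl fun e _ => ?_
    unfold tw
    rw [comp_assoc]
    congr 1
    rw [mul_comp, C_comp, X_comp, ← mul_assoc, ← C_mul, mul_comm e c]
  rw [h1]
  exact S1_prod_mul (fun e => tw g e) hc

lemma GG_coeff (g : (PadicAlgCl p)[X]) {n : ℕ} (hn : ¬ p ∣ n) : (GG g).coeff n = 0 := by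
  obtain ⟨ε, hε, hεS, -⟩ := exists_root (p := p)
  have h1 := congrArg (fun f => coeff f n) (GG_tw g hεS)
  simp only [tw_coeff] at h1
  have h2 : ε ^ n ≠ 1 := fun h => hn (hε.dvd_of_pow_eq_one n h)
  have h3 : (GG g).coeff n * (ε ^ n - 1) = 0 := by rw [mul_sub, mul_one, h1, sub_self]
  exact (mul_eq_zero.1 h3).resolve_right (sub_ne_zero.2 h2)

/-- `H(X^p) = G` -/
noncomputable def HH (g : (PadicAlgCl p)[X]) : (PadicAlgCl p)[X] := contract p (GG g)

lemma HH_coeff (g : (PadicAlgCl p)[X]) (n : ℕ) : (HH g).coeff n = (GG g).coeff (n * p) :=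
  coeff_contract (Fact.out : p.Prime).ne_zero _ _

lemma expand_HH (g : (PadicAlgCl p)[X]) : expand _ p (HH g) = GG g := by
  have hp : 0 < p := (Fact.out : p.Prime).pos
  ext n
  rw [coeff_expand hp]
  split_ifs with h
  · rw [HH_coeff, Nat.div_mul_cancel h]
  · exact (GG_coeff g h).symm

lemma HH_eval (g : (PadicAlgCl p)[X]) (x : PadicAlgCl p) :
    (HH g).eval (x ^ p) = ∏ e ∈ S1 p, g.eval (e * x) := by
  rw [← GG_eval, ← expand_HH, expand_eval]

/-- the coefficients are in `ℚ_p` -/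
lemma GG_rat (g : ℤ_[p][X]) (n : ℕ) : ∃ x : ℚ_[p],
    algebraMap ℚ_[p] (PadicAlgCl p) x = (GG (g.map (φ p))).coeff n := by
  have hgal : IsGalois ℚ_[p] (PadicAlgCl p) :=
    inferInstanceAs (IsGalois ℚ_[p] (AlgebraicClosure ℚ_[p]))
  have h1 : (GG (g.map (φ p))).coeff n ∈ (⊥ : IntermediateField ℚ_[p] (PadicAlgCl p)) := by
    rw [InfiniteGalois.mem_bot_iff_fixed]
    intro τ
    have h2 : (GG (g.map (φ p))).map (τ : PadicAlgCl p →+* PadicAlgCl p) = GG (g.map (φ p)) := by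
      unfold GG
      rw [Polynomial.map_prod]
      have h3 : ∀ e ∈ S1 p, (tw (g.map (φ p)) e).map (τ : PadicAlgCl p →+* PadicAlgCl p) =
          tw (g.map (φ p)) (τ e) := by
        intro e _
        unfold tw
        rw [map_comp, map_map]
        congr 1
        · congr 1
          ext x
          exact τ.commutes _
        · rw [Polynomial.map_mul, map_C, map_X]
          rfl
      rw [Finset.prod_congr rfl h3]
      refine Finset.prod_bij (fun x _ => τ x) (fun x hx => ?_) (fun x _ x' _ h => τ.injective h)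
        (fun x hx => ?_) fun x _ => rfl
      · rw [mem_S1] at hx ⊢
        rw [← map_pow, hx, map_one]
      · refine ⟨τ.symm x, ?_, τ.apply_symm_apply x⟩
        rw [mem_S1] at hx ⊢
        rw [← map_pow, hx, map_one]
    have h3 := congrArg (fun f => coeff f n) h2
    simp only [coeff_map] at h3
    exact h3
  exact IntermediateField.mem_bot.1 h1

/-- `H` is congruent to `g` modulo `p` -/
lemma HH_close (hp : p ≠ 2) (g : ℤ_[p][X]) : Bd (p : ℝ)⁻¹ (HH (g.map (φ p)) - g.map (φ p)) := by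
  classical
  have hpp : p.Prime := Fact.out
  obtain ⟨ε, hε, hεS, hcard⟩ := exists_root (p := p)
  set gΩ := g.map (φ p) with hgΩ
  -- a uniform bound
  obtain ⟨ρ, hρ0, hρ1, hρ⟩ : ∃ ρ : ℝ, 0 ≤ ρ ∧ ρ < 1 ∧ ∀ e ∈ S1 p, ‖e - 1‖ ≤ ρ := by
    obtain ⟨e₀, he₀, hmax⟩ := (S1 p).exists_max_image (fun e => ‖e - 1‖) ⟨1, S1_one⟩
    exact ⟨‖e₀ - 1‖, norm_nonneg _, S1_close hp he₀, hmax⟩
  have h1 : Bd ρ (GG gΩ - gΩ ^ p) := by
    have h2 : gΩ ^ p = ∏ _e ∈ S1 p, gΩ := by rw [Finset.prod_const, hcard]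
    rw [h2]
    unfold GG
    refine prod_close _ _ _ hρ0 (fun e he => tw_Bd (Bd_map g) (S1_norm he))
      (fun e _ => Bd_map g) fun e he => ?_
    intro m
    rw [coeff_sub, tw_coeff]
    have h3 : gΩ.coeff m * e ^ m - gΩ.coeff m = gΩ.coeff m * (e ^ m - 1) := by ring
    have h4 : e ^ m ∈ S1 p := by
      rw [mem_S1, ← pow_mul, mul_comm, pow_mul, mem_S1.1 he, one_pow]
    rw [h3, norm_mul]
    calc ‖gΩ.coeff m‖ * ‖e ^ m - 1‖ ≤ 1 * ρ :=
          mul_le_mul (Bd_map g m) (hρ _ h4) (norm_nonneg _) zero_le_one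
      _ = ρ := one_mul ρ
  intro n
  obtain ⟨x, hx⟩ := GG_rat g (n * p)
  -- the coefficient of `g ^ p`
  have h5 : ‖(gΩ ^ p).coeff (n * p) - gΩ.coeff n‖ < 1 := by
    have h6 : gΩ ^ p = (g ^ p).map (φ p) := by rw [Polynomial.map_pow]
    have h7 : (g ^ p - expand _ p g).map (PadicInt.toZMod (p := p)) = 0 := by
      rw [Polynomial.map_sub, Polynomial.map_pow, map_expand, ZMod.expand_card, sub_self]
    have h8 : ((g ^ p).coeff (n * p) - g.coeff n) ∈ RingHom.ker (PadicInt.toZMod (p := p)) := by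
      rw [RingHom.mem_ker]
      have h9 := congrArg (fun f => coeff f (n * p)) h7
      simp only [coeff_map, coeff_sub, coeff_zero] at h9
      rw [coeff_expand hpp.pos, if_pos (Dvd.intro_left n rfl), Nat.mul_div_cancel _ hpp.pos] at h9
      exact h9
    rw [PadicInt.ker_toZMod, IsLocalRing.mem_maximalIdeal, PadicInt.mem_nonunits] at h8
    rw [h6, hgΩ, coeff_map, coeff_map, ← map_sub, norm_φ]
    exact h8
  have h10 : ‖(GG gΩ).coeff (n * p) - gΩ.coeff n‖ < 1 := by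
    have h11 : (GG gΩ).coeff (n * p) - gΩ.coeff n =
        ((GG gΩ).coeff (n * p) - (gΩ ^ p).coeff (n * p)) +
          ((gΩ ^ p).coeff (n * p) - gΩ.coeff n) := by ring
    rw [h11]
    refine (IsUltrametricDist.norm_add_le_max _ _).trans_lt (max_lt ?_ h5)
    have h12 := h1 (n * p)
    rw [coeff_sub] at h12
    exact h12.trans_lt hρ1
  rw [coeff_sub, HH_coeff, ← hx]
  rw [← hx] at h10
  have h13 : algebraMap ℚ_[p] (PadicAlgCl p) x - gΩ.coeff n =
      algebraMap ℚ_[p] (PadicAlgCl p) (x - (g.coeff n : ℚ_[p])) := by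
    rw [map_sub, hgΩ, coeff_map]
    rfl
  rw [h13, PadicAlgCl.norm_extends] at h10 ⊢
  have h14 := (Padic.norm_le_pow_iff_norm_lt_pow_add_one (x - (g.coeff n : ℚ_[p])) (-1)).2 (by
    rw [neg_add_cancel, zpow_zero]
    exact h10)
  rwa [zpow_neg_one] at h14

/-- **the congruence of Dwork** -/
theorem dwork (hp : p ≠ 2) (g : ℤ_[p][X]) (hg : ‖g.eval 1‖ = 1) :
    ‖∏ x ∈ primitiveRoots (p ^ 2) (PadicAlgCl p), (g.map (φ p)).eval x - 1‖ ≤ (p : ℝ)⁻¹ ^ 2 := by
  classical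
  have hpp : p.Prime := Fact.out
  set gΩ := g.map (φ p) with hgΩ
  have hB := Bd_map g
  rw [← hgΩ] at hB
  have hE := HH_close hp g
  rw [← hgΩ] at hE
  set E := HH gΩ - gΩ with hEdef
  -- the values at the `p`-th roots of unity are units
  have hg1 : ‖gΩ.eval 1‖ = 1 := by
    have h1 : gΩ.eval 1 = φ p (g.eval 1) := by
      rw [hgΩ, ← map_one (φ p), eval_map, eval₂_hom]
    rw [h1, norm_φ, hg]
  have hval : ∀ x ∈ S1 p, ‖gΩ.eval x‖ = 1 := by
    intro x hx
    obtain ⟨q, hq⟩ := sub_dvd_eval_sub x 1 gΩ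
    have h1 : ‖gΩ.eval x - gΩ.eval 1‖ < 1 := by
      have h2 : gΩ.eval x - gΩ.eval 1 =
          ∑ i ∈ Finset.range (gΩ.natDegree + 1), gΩ.coeff i * (x ^ i - 1) := by
        rw [eval_eq_sum_range, eval_eq_sum_range, ← Finset.sum_sub_distrib]
        refine Finset.sum_congr rfl fun i _ => ?_
        rw [one_pow]
        ring
      rw [h2]
      refine (IsUltrametricDist.norm_sum_le_of_forall_le_of_nonneg (norm_nonneg (x - 1))
        fun i _ => ?_).trans_lt (S1_close hp hx)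
      rw [norm_mul]
      have h3 : ‖x ^ i - 1‖ ≤ ‖x - 1‖ := by
        obtain ⟨q, hq⟩ := sub_dvd_pow_sub_pow x 1 i
        rw [one_pow] at hq
        have h4 : x ^ i - 1 = (∑ j ∈ Finset.range i, x ^ j) * (x - 1) := by
          rw [geom_sum_mul]
        rw [h4, norm_mul]
        refine mul_le_of_le_one_left (norm_nonneg _) ?_
        refine IsUltrametricDist.norm_sum_le_of_forall_le_of_nonneg zero_le_one fun j _ => ?_
        rw [norm_pow, S1_norm hx, one_pow]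
      calc ‖gΩ.coeff i‖ * ‖x ^ i - 1‖ ≤ 1 * ‖x - 1‖ :=
            mul_le_mul (hB i) h3 (norm_nonneg _) zero_le_one
        _ = ‖x - 1‖ := one_mul _
    have h5 : gΩ.eval x = (gΩ.eval x - gΩ.eval 1) + gΩ.eval 1 := by ring
    rw [h5, IsUltrametricDist.norm_add_eq_max_of_norm_ne_norm (by rw [hg1]; exact h1.ne), hg1]
    exact max_eq_right h1.le
  -- the product over the `p²`-th roots of unity
  have hR2 : ∏ c ∈ S2 p, gΩ.eval c = ∏ d ∈ S1 p, (HH gΩ).eval d := by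
    have hmaps : ∀ c ∈ S2 p, c ^ p ∈ S1 p := by
      intro c hc
      rw [mem_S2] at hc
      rw [mem_S1, ← pow_mul, ← sq, hc]
    rw [← Finset.prod_fiberwise_of_maps_to hmaps]
    refine Finset.prod_congr rfl fun d hd => ?_
    obtain ⟨x, hx⟩ := IsAlgClosed.exists_pow_nat_eq d hpp.pos
    have hx0 : x ≠ 0 := by
      rintro rfl
      rw [zero_pow hpp.ne_zero] at hx
      exact S1_ne hd hx.symm
    rw [← hx, HH_eval]
    symm
    refine Finset.prod_bij (fun e _ => e * x) (fun e he => ?_)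
      (fun e _ e' _ h => mul_right_cancel₀ hx0 h) (fun c hc => ?_) fun e _ => rfl
    · rw [Finset.mem_filter, mem_S2, mul_pow, mul_pow, mem_S1.1 he, one_mul]
      refine ⟨?_, rfl⟩
      rw [sq, pow_mul, pow_mul, mem_S1.1 he, one_pow, one_mul, hx, mem_S1.1 hd]
    · rw [Finset.mem_filter] at hc
      refine ⟨c * x⁻¹, ?_, by rw [mul_assoc, inv_mul_cancel₀ hx0, mul_one]⟩
      rw [mem_S1, mul_pow, hc.2, inv_pow, mul_inv_cancel₀ (pow_ne_zero _ hx0)]
  -- decomposition of the `p²`-th roots of unity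
  have hdec : ∏ c ∈ S2 p, gΩ.eval c =
      (∏ x ∈ primitiveRoots (p ^ 2) (PadicAlgCl p), gΩ.eval x) * ∏ d ∈ S1 p, gΩ.eval d := by
    rw [← Finset.prod_union]
    · refine Finset.prod_congr ?_ fun _ _ => rfl
      ext c
      rw [Finset.mem_union, mem_S2, mem_S1, mem_primitiveRoots (pow_pos hpp.pos 2)]
      constructor
      · intro h
        by_cases hc : c ^ p = 1
        · exact Or.inr hc
        · left
          have h1 : orderOf c = p ^ (1 + 1) := orderOf_eq_prime_pow (by rwa [pow_one]) h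
          rw [IsPrimitiveRoot.iff_orderOf, h1]
      · rintro (h | h)
        · exact h.pow_eq_one
        · rw [sq, pow_mul, h, one_pow]
    · rw [Finset.disjoint_left]
      intro c hc hc'
      rw [mem_primitiveRoots (pow_pos hpp.pos 2)] at hc
      have h1 := hc.dvd_of_pow_eq_one p (mem_S1.1 hc')
      have h2 := Nat.le_of_dvd hpp.pos h1
      have h3 := hpp.one_lt
      nlinarith
  -- the first order expansion
  have hfo := first_order (S1 p) (fun d => gΩ.eval d) (fun d => E.eval d) (r := (p : ℝ)⁻¹)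
    p_inv_pos.le p_inv_lt.le (fun d hd => (hval d hd).le)
    (fun d hd => hE.eval p_inv_pos.le (S1_norm hd).le)
  have hlin : ‖∑ d ∈ S1 p, E.eval d * ∏ j ∈ (S1 p).erase d, gΩ.eval j‖ ≤ (p : ℝ)⁻¹ ^ 2 := by
    have h1 : ∀ d ∈ S1 p, E.eval d * ∏ j ∈ (S1 p).erase d, gΩ.eval j =
        (E * ∏ e ∈ (S1 p).erase 1, tw gΩ e).eval d := by
      intro d hd
      rw [eval_mul, eval_prod]
      congr 1
      symm
      refine Finset.prod_bij (fun e _ => e * d) (fun e he => ?_)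
        (fun e _ e' _ h => mul_right_cancel₀ (S1_ne hd) h) (fun c hc => ?_) fun e _ => tw_eval _ _ _
      · rw [Finset.mem_erase] at he ⊢
        refine ⟨fun h => he.1 ?_, S1_mul he.2 hd⟩
        have h2 : e * d = 1 * d := by rw [h, one_mul]
        exact mul_right_cancel₀ (S1_ne hd) h2
      · rw [Finset.mem_erase] at hc
        refine ⟨c * d⁻¹, ?_, by rw [mul_assoc, inv_mul_cancel₀ (S1_ne hd), mul_one]⟩
        rw [Finset.mem_erase]
        refine ⟨fun h => hc.1 ?_, S1_mul hc.2 (S1_inv hd)⟩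
        rw [mul_inv_eq_one₀ (S1_ne hd)] at h
        exact h
    rw [Finset.sum_congr rfl h1, sq]
    refine Bd.powsum p_inv_pos.le ?_
    have h2 := hE.mul (Bd.prod ((S1 p).erase 1) (fun e => tw gΩ e) fun e he =>
      tw_Bd hB (S1_norm (Finset.mem_of_mem_erase he))) p_inv_pos.le zero_le_one
    rwa [mul_one] at h2
  have hdiff : ‖∏ d ∈ S1 p, (HH gΩ).eval d - ∏ d ∈ S1 p, gΩ.eval d‖ ≤ (p : ℝ)⁻¹ ^ 2 := by
    have h1 : ∀ d, (HH gΩ).eval d = gΩ.eval d + E.eval d := by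
      intro d
      rw [hEdef, eval_sub]
      ring
    simp only [h1]
    have h2 := norm_add_le' hfo hlin
    rwa [sub_add_cancel] at h2
  have hR1 : ‖∏ d ∈ S1 p, gΩ.eval d‖ = 1 := by
    rw [norm_prod]
    exact Finset.prod_eq_one hval
  have h6 : ∏ d ∈ S1 p, (HH gΩ).eval d - ∏ d ∈ S1 p, gΩ.eval d =
      (∏ x ∈ primitiveRoots (p ^ 2) (PadicAlgCl p), gΩ.eval x - 1) * ∏ d ∈ S1 p, gΩ.eval d := by
    rw [← hR2, hdec]
    ring
  rw [h6, norm_mul, hR1, mul_one] at hdiff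
  exact hdiff

end dwork

end Pool.Agent.L7h60.SG.H1
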