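import Mathlib
import Pool.Agent.H639R3.Cyc
import Pool.Agent.L7h60.SG.H1a
import Pool.Agent.L7h48.SG.Stm

/-!
# Project SG (helper48, MP_b4b3cb_nt): [H1]

The norms from an extension of `ℚ_p(μ_{p²})` are the numbers `p^k (1 + p² n)`.
-/

set_option autoImplicit false
set_option linter.unusedSectionVars false

namespace Pool.Agent.L7h60.SG.H1

open Polynomial IntermediateField

variable {p : ℕ} [Fact p.Prime]

/-- the norm from `ℚ_p(ζ)` -/
lemma norm_formula {L : Type*} [Field L] [Algebra ℚ_[p] L] [FiniteDimensional ℚ_[p] L] (ζ : L)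
    (hζ : IsPrimitiveRoot ζ (p ^ 2)) (h : ℚ_[p][X]) :
    algebraMap ℚ_[p] (PadicAlgCl p)
      (Algebra.norm ℚ_[p] (aeval (AdjoinSimple.gen ℚ_[p] ζ) h)) =
      ∏ c ∈ primitiveRoots (p ^ 2) (PadicAlgCl p), aeval c h := by
  classical
  have hpp : p.Prime := Fact.out
  have hp2 : 0 < p ^ 2 := pow_pos hpp.pos 2
  have hmin : minpoly ℚ_[p] ζ = cyclotomic (p ^ 2) ℚ_[p] :=
    Pool.Agent.H639R3.minpoly_zeta 1 ζ hζ
  have hint : IsIntegral ℚ_[p] ζ := IsIntegral.of_finite _ _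
  have hgen : IsPrimitiveRoot (AdjoinSimple.gen ℚ_[p] ζ) (p ^ 2) := by
    have h1 : IsPrimitiveRoot ((algebraMap ℚ_[p]⟮ζ⟯ L) (AdjoinSimple.gen ℚ_[p] ζ)) (p ^ 2) := by
      rw [AdjoinSimple.algebraMap_gen]
      exact hζ
    exact IsPrimitiveRoot.of_map_of_injective (f := algebraMap ℚ_[p]⟮ζ⟯ L) h1
      (algebraMap ℚ_[p]⟮ζ⟯ L).injective
  have hval : ∀ σ : ℚ_[p]⟮ζ⟯ →ₐ[ℚ_[p]] PadicAlgCl p,
      σ = (algHomAdjoinIntegralEquiv ℚ_[p] hint).symm
        ((algHomAdjoinIntegralEquiv ℚ_[p] hint) σ) := fun σ => by rw [Equiv.symm_apply_apply]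
  rw [Algebra.norm_eq_prod_embeddings ℚ_[p] (PadicAlgCl p)]
  refine Finset.prod_bij (fun σ _ => σ (AdjoinSimple.gen ℚ_[p] ζ)) (fun σ _ => ?_)
    (fun σ _ σ' _ hs => ?_) (fun c hc => ?_) fun σ _ => ?_
  · rw [mem_primitiveRoots hp2]
    exact hgen.map_of_injective σ.injective
  · rw [hval σ, hval σ'] at hs
    rw [algHomAdjoinIntegralEquiv_symm_apply_gen, algHomAdjoinIntegralEquiv_symm_apply_gen] at hs
    exact (algHomAdjoinIntegralEquiv ℚ_[p] hint).injective (Subtype.ext hs)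
  · have hc' : c ∈ (minpoly ℚ_[p] ζ).aroots (PadicAlgCl p) := by
      rw [hmin, mem_aroots, aeval_def, ← eval_map, map_cyclotomic]
      refine ⟨cyclotomic_ne_zero _ _, ?_⟩
      exact ((mem_primitiveRoots hp2).1 hc).isRoot_cyclotomic hp2
    exact ⟨(algHomAdjoinIntegralEquiv ℚ_[p] hint).symm ⟨c, hc'⟩, Finset.mem_univ _,
      algHomAdjoinIntegralEquiv_symm_apply_gen _ _ _⟩
  · rw [← aeval_algHom_apply]


variable (p) in
/-- the number of the primitive roots -/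
noncomputable def nn : ℕ := (primitiveRoots (p ^ 2) (PadicAlgCl p)).card

variable (p) in
lemma exists_zeta : ∃ ζ : PadicAlgCl p, IsPrimitiveRoot ζ (p ^ 2) := by
  have : NeZero (p ^ 2) := ⟨(pow_pos (Fact.out : p.Prime).pos 2).ne'⟩
  exact HasEnoughRootsOfUnity.exists_primitiveRoot (PadicAlgCl p) (p ^ 2)

variable (p) in
lemma prod_one_sub : ∏ c ∈ primitiveRoots (p ^ 2) (PadicAlgCl p), (1 - c) = (p : PadicAlgCl p) := by
  obtain ⟨ζ, hζ⟩ := exists_zeta p
  have h1 := eval_one_cyclotomic_prime_pow (R := PadicAlgCl p) (p := p) 1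
  rw [show p ^ (1 + 1) = p ^ 2 from rfl, cyclotomic_eq_prod_X_sub_primitiveRoots hζ,
    eval_prod] at h1
  rw [← h1]
  refine Finset.prod_congr rfl fun c _ => ?_
  rw [eval_sub, eval_X, eval_C]

variable (p) in
/-- `p` is a multiple of `(1 - c)^n` -/
lemma exists_E : ∃ E : ℤ_[p][X], ∀ c ∈ primitiveRoots (p ^ 2) (PadicAlgCl p),
    (p : PadicAlgCl p) = (1 - c) ^ nn p * (E.map (φ p)).eval c := by
  classical
  have hpp : p.Prime := Fact.out
  have hp2 : 0 < p ^ 2 := pow_pos hpp.pos 2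
  have : NeZero (p ^ 2) := ⟨hp2.ne'⟩
  obtain ⟨ζ, hζ⟩ := exists_zeta p
  have h1 : ∀ c : PadicAlgCl p, ∃ i : ℕ, c ∈ primitiveRoots (p ^ 2) (PadicAlgCl p) → ζ ^ i = c := by
    intro c
    by_cases hc : c ∈ primitiveRoots (p ^ 2) (PadicAlgCl p)
    · obtain ⟨i, -, hi⟩ := hζ.eq_pow_of_pow_eq_one
        ((mem_primitiveRoots hp2).1 hc).pow_eq_one
      exact ⟨i, fun _ => hi⟩
    · exact ⟨0, fun h => absurd h hc⟩
  choose i hi using h1
  refine ⟨∏ c ∈ primitiveRoots (p ^ 2) (PadicAlgCl p), ∑ j ∈ Finset.range (i c), X ^ j,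
    fun c hc => ?_⟩
  set E : ℤ_[p][X] :=
    ∏ c ∈ primitiveRoots (p ^ 2) (PadicAlgCl p), ∑ j ∈ Finset.range (i c), X ^ j with hE
  have h2 : (p : PadicAlgCl p) = (1 - ζ) ^ nn p * (E.map (φ p)).eval ζ := by
    rw [← prod_one_sub p, hE, Polynomial.map_prod, eval_prod, nn, ← Finset.prod_const,
      ← Finset.prod_mul_distrib]
    refine Finset.prod_congr rfl fun c hc => ?_
    rw [Polynomial.map_sum, eval_finsetSum]
    simp only [Polynomial.map_pow, map_X, eval_pow, eval_X]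
    rw [mul_comm, geom_sum_mul_neg, hi c hc]
  set Q : ℚ_[p][X] := C (p : ℚ_[p]) - (1 - X) ^ nn p * E.map (PadicInt.Coe.ringHom) with hQ
  have h3 : ∀ x : PadicAlgCl p, aeval x Q =
      (p : PadicAlgCl p) - (1 - x) ^ nn p * (E.map (φ p)).eval x := by
    intro x
    rw [hQ, map_sub, map_mul, map_pow, map_sub, map_one, aeval_X, aeval_C, map_natCast,
      aeval_def, eval₂_map, eval_map]
    rfl
  have h4 : aeval ζ Q = 0 := by rw [h3, ← h2, sub_self]
  have h5 := minpoly.dvd _ _ h4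
  rw [Pool.Agent.H639R3.minpoly_zeta 1 ζ hζ,
    ← Pool.Agent.H639R3.minpoly_zeta 1 c ((mem_primitiveRoots hp2).1 hc)] at h5
  have h6 := aeval_eq_zero_of_dvd_aeval_eq_zero h5 (minpoly.aeval _ _)
  rw [h3, sub_eq_zero] at h6
  exact h6

lemma exists_int {x : ℚ_[p]} {m : ℤ} (hx : x ≠ 0) (hm : m ≤ x.valuation) :
    ∃ b : ℤ_[p], x = (p : ℚ_[p]) ^ m * b ∧ (x.valuation = m → ‖b‖ = 1) := by
  have hp0 : (p : ℚ_[p]) ≠ 0 := by exact_mod_cast (Fact.out : p.Prime).ne_zero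
  have hpR : (p : ℝ) ≠ 0 := by exact_mod_cast (Fact.out : p.Prime).ne_zero
  have hp1 : (1 : ℝ) ≤ p := by exact_mod_cast (Fact.out : p.Prime).one_lt.le
  have h1 : ‖x * (p : ℚ_[p]) ^ (-m)‖ = (p : ℝ) ^ (m - x.valuation) := by
    rw [norm_mul, Padic.norm_eq_zpow_neg_valuation hx, norm_zpow, Padic.norm_p, inv_zpow,
      ← zpow_neg, neg_neg, ← zpow_add₀ hpR]
    congr 1
    ring
  have h2 : ‖x * (p : ℚ_[p]) ^ (-m)‖ ≤ 1 := by
    rw [h1]
    exact zpow_le_one_of_nonpos₀ hp1 (by omega)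
  refine ⟨⟨_, h2⟩, ?_, fun h => ?_⟩
  · show x = (p : ℚ_[p]) ^ m * (x * (p : ℚ_[p]) ^ (-m))
    rw [zpow_neg]
    field_simp
  · show ‖x * (p : ℚ_[p]) ^ (-m)‖ = 1
    rw [h1, h, sub_self, zpow_zero]

/-- the expansion -/
lemma expansion {h : ℚ_[p][X]} (h0 : h ≠ 0) (hdeg : h.natDegree < nn p) :
    ∃ (m : ℤ) (i₀ : ℕ) (g : ℤ_[p][X]), ‖g.eval 1‖ = 1 ∧
      ∀ c ∈ primitiveRoots (p ^ 2) (PadicAlgCl p),
        aeval c h = (p : PadicAlgCl p) ^ m * (1 - c) ^ i₀ * (g.map (φ p)).eval c := by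
  classical
  obtain ⟨E, hE⟩ := exists_E p
  set f : ℚ_[p][X] := h.comp (1 - X) with hf
  have hX : (1 - X : ℚ_[p][X]).natDegree = 1 := by
    rw [natDegree_sub, show (1 : ℚ_[p][X]) = C 1 from rfl]
    exact natDegree_X_sub_C 1
  have hfd : f.natDegree < nn p := by rw [hf, natDegree_comp, hX, mul_one]; exact hdeg
  have hhf : h = f.comp (1 - X) := by
    rw [hf, comp_assoc, sub_comp, one_comp, X_comp, sub_sub_cancel, comp_X]
  have hf0 : f ≠ 0 := by
    intro h1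
    rw [h1, zero_comp] at hhf
    exact h0 hhf
  obtain ⟨i₀, hi₀, hmin⟩ := f.support.exists_min_image
    (fun i => (nn p : ℤ) * (f.coeff i).valuation + i) (by rwa [support_nonempty])
  have hi₀d : i₀ < nn p := (le_natDegree_of_mem_supp _ hi₀).trans_lt hfd
  set m := (f.coeff i₀).valuation with hm
  have key : ∀ i, ∃ g : ℤ_[p][X], i < nn p → (∀ c ∈ primitiveRoots (p ^ 2) (PadicAlgCl p),
      algebraMap ℚ_[p] (PadicAlgCl p) (f.coeff i) * (1 - c) ^ i =
        (p : PadicAlgCl p) ^ m * (1 - c) ^ i₀ * (g.map (φ p)).eval c) ∧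
      (i ≠ i₀ → g.eval 1 = 0) ∧ (i = i₀ → ‖g.eval 1‖ = 1) := by
    intro i
    by_cases hi : f.coeff i = 0
    · refine ⟨0, fun _ => ⟨fun c _ => ?_, fun _ => eval_zero, fun h1 => ?_⟩⟩
      · rw [hi, map_zero, zero_mul, Polynomial.map_zero, eval_zero, mul_zero]
      · rw [h1] at hi
        exact absurd hi (mem_support_iff.1 hi₀)
    have h1 := hmin i (mem_support_iff.2 hi)
    by_cases h2 : i₀ ≤ i
    · by_cases h3 : i < nn p
      · have h4 : m ≤ (f.coeff i).valuation := by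
          by_contra hcon
          have h5 : (f.coeff i).valuation ≤ m - 1 := by omega
          have h6 : (nn p : ℤ) * (f.coeff i).valuation ≤ nn p * (m - 1) :=
            mul_le_mul_of_nonneg_left h5 (by positivity)
          have h7 : (i : ℤ) < nn p := by exact_mod_cast h3
          have h8 : (0 : ℤ) ≤ i₀ := by positivity
          nlinarith
        obtain ⟨b, hb, hb1⟩ := exists_int hi h4
        refine ⟨C b * (1 - X) ^ (i - i₀), fun _ => ⟨fun c _ => ?_, fun h5 => ?_, fun h5 => ?_⟩⟩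
        · have h6 : algebraMap ℚ_[p] (PadicAlgCl p) (f.coeff i) =
              (p : PadicAlgCl p) ^ m * φ p b := by
            rw [hb, map_mul, map_zpow₀, map_natCast]
            rfl
          rw [h6]
          simp only [Polynomial.map_mul, map_C, Polynomial.map_pow, Polynomial.map_sub,
            Polynomial.map_one, map_X, eval_mul, eval_C, eval_pow, eval_sub, eval_one, eval_X]
          obtain ⟨j, rfl⟩ := Nat.exists_eq_add_of_le h2
          rw [Nat.add_sub_cancel_left, pow_add]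
          ring
        · simp only [eval_mul, eval_C, eval_pow, eval_sub, eval_one, eval_X, sub_self]
          rw [zero_pow (by omega), mul_zero]
        · subst h5
          simp only [eval_mul, eval_C, eval_pow, eval_sub, eval_one, eval_X]
          rw [Nat.sub_self, pow_zero, mul_one]
          exact hb1 rfl
      · exact ⟨0, fun h => absurd h h3⟩
    · have h4 : m + 1 ≤ (f.coeff i).valuation := by
        by_contra hcon
        have h5 : (f.coeff i).valuation ≤ m := by omega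
        have h6 : (nn p : ℤ) * (f.coeff i).valuation ≤ nn p * m :=
          mul_le_mul_of_nonneg_left h5 (by positivity)
        have h7 : (i : ℤ) < i₀ := by exact_mod_cast not_le.1 h2
        linarith
      obtain ⟨b, hb, -⟩ := exists_int hi h4
      refine ⟨C b * (1 - X) ^ (nn p - i₀ + i) * E, fun _ => ⟨fun c hc => ?_, fun h5 => ?_,
        fun h5 => absurd h5 (by omega)⟩⟩
      · have hp0 : (p : PadicAlgCl p) ≠ 0 := by exact_mod_cast (Fact.out : p.Prime).ne_zero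
        have h6 : algebraMap ℚ_[p] (PadicAlgCl p) (f.coeff i) =
            (p : PadicAlgCl p) ^ m * (((1 - c) ^ nn p * (E.map (φ p)).eval c) * φ p b) := by
          rw [← hE c hc, hb, map_mul, map_zpow₀, map_natCast, zpow_add₀ hp0, zpow_one, mul_assoc]
          rfl
        rw [h6]
        simp only [Polynomial.map_mul, map_C, Polynomial.map_pow, Polynomial.map_sub,
          Polynomial.map_one, map_X, eval_mul, eval_C, eval_pow, eval_sub, eval_one, eval_X]
        obtain ⟨j, hj⟩ := Nat.exists_eq_add_of_le hi₀d.le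
        rw [hj, Nat.add_sub_cancel_left, pow_add, pow_add]
        ring
      · simp only [eval_mul, eval_C, eval_pow, eval_sub, eval_one, eval_X, sub_self]
        rw [zero_pow (by omega), mul_zero, zero_mul]
  choose G hG using key
  refine ⟨m, i₀, ∑ i ∈ Finset.range (nn p), G i, ?_, fun c hc => ?_⟩
  · rw [eval_finsetSum, Finset.sum_eq_single i₀]
    · exact (hG i₀ hi₀d).2.2 rfl
    · intro i hi h1
      exact (hG i (Finset.mem_range.1 hi)).2.1 h1
    · intro h1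
      exact absurd (Finset.mem_range.2 hi₀d) h1
  · rw [Polynomial.map_sum, eval_finsetSum, Finset.mul_sum, hhf, aeval_comp, map_sub, map_one,
      aeval_X, aeval_eq_sum_range' hfd]
    refine Finset.sum_congr rfl fun i hi => ?_
    rw [Algebra.smul_def]
    exact (hG i (Finset.mem_range.1 hi)).1 c hc

/-- **[H1]** -/
theorem s_H1 : Pool.Agent.L7h48.SG.S_H1 := by
  intro p hpF hp2 L hL hζ z hz
  classical
  have hpp : p.Prime := Fact.out
  have hp2' : 0 < p ^ 2 := pow_pos hpp.pos 2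
  obtain ⟨ζ₀, hζL, hζ₀⟩ := hζ
  set ζ : L := ⟨ζ₀, hζL⟩ with hζdef
  have hζ : IsPrimitiveRoot ζ (p ^ 2) := by
    have h1 : IsPrimitiveRoot (algebraMap L (PadicAlgCl p) ζ) (p ^ 2) := hζ₀
    exact IsPrimitiveRoot.of_map_of_injective (f := algebraMap L (PadicAlgCl p)) h1
      (algebraMap L (PadicAlgCl p)).injective
  have hint : IsIntegral ℚ_[p] ζ := IsIntegral.of_finite _ _
  have hmin : minpoly ℚ_[p] ζ = cyclotomic (p ^ 2) ℚ_[p] :=
    Pool.Agent.H639R3.minpoly_zeta 1 ζ hζ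
  set y : ℚ_[p]⟮ζ⟯ := Algebra.norm ℚ_[p]⟮ζ⟯ z with hy
  have hy0 : y ≠ 0 := by
    rw [hy]
    exact Algebra.norm_ne_zero_iff.2 hz
  have hnorm : Algebra.norm ℚ_[p] z = Algebra.norm ℚ_[p] y := by
    rw [hy, Algebra.norm_norm]
  obtain ⟨h, hdeg, hyh⟩ := (IntermediateField.adjoin.powerBasis hint).exists_eq_aeval y
  rw [IntermediateField.adjoin.powerBasis_gen] at hyh
  have hdim : (IntermediateField.adjoin.powerBasis hint).dim = nn p := by
    rw [IntermediateField.adjoin.powerBasis_dim, hmin, natDegree_cyclotomic, nn]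
    obtain ⟨ξ, hξ⟩ := exists_zeta p
    rw [hξ.card_primitiveRoots]
  rw [hdim] at hdeg
  have hh0 : h ≠ 0 := by
    rintro rfl
    rw [map_zero] at hyh
    exact hy0 hyh
  obtain ⟨m, i₀, g, hg1, hg⟩ := expansion hh0 hdeg
  have hN := norm_formula ζ hζ h
  rw [← hyh, Finset.prod_congr rfl hg, Finset.prod_mul_distrib, Finset.prod_mul_distrib,
    Finset.prod_const, Finset.prod_pow, prod_one_sub] at hN
  set P := ∏ c ∈ primitiveRoots (p ^ 2) (PadicAlgCl p), (g.map (φ p)).eval c with hP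
  have hD := dwork hp2 g hg1
  rw [← hP] at hD
  have hp0 : (p : ℚ_[p]) ≠ 0 := by exact_mod_cast hpp.ne_zero
  have hp0' : (p : PadicAlgCl p) ≠ 0 := by exact_mod_cast hpp.ne_zero
  set k : ℤ := m * nn p + i₀ with hk
  have hN2 : algebraMap ℚ_[p] (PadicAlgCl p) (Algebra.norm ℚ_[p] y * (p : ℚ_[p]) ^ (-k) - 1) =
      P - 1 := by
    rw [map_sub, map_mul, map_one, hN, map_zpow₀, map_natCast, ← zpow_natCast (_ ^ m),
      ← zpow_mul, ← zpow_natCast (p : PadicAlgCl p) i₀, ← zpow_add₀ hp0', zpow_neg]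
    show (p : PadicAlgCl p) ^ k * P * ((p : PadicAlgCl p) ^ k)⁻¹ - 1 = P - 1
    have := zpow_ne_zero k hp0'
    field_simp
  have hN3 : ‖Algebra.norm ℚ_[p] y * (p : ℚ_[p]) ^ (-k) - 1‖ ≤ (p : ℝ)⁻¹ ^ 2 := by
    rw [← PadicAlgCl.norm_extends, hN2]
    exact hD
  have hpR : (0 : ℝ) < p := by exact_mod_cast hpp.pos
  have hN4 : ‖(Algebra.norm ℚ_[p] y * (p : ℚ_[p]) ^ (-k) - 1) / (p : ℚ_[p]) ^ 2‖ ≤ 1 := by
    rw [norm_div, norm_pow, Padic.norm_p]
    exact div_le_one_of_le₀ hN3 (by positivity)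
  refine ⟨k, ⟨_, hN4⟩, ?_⟩
  rw [hnorm]
  show _ = (p : ℚ_[p]) ^ k * (1 + (p : ℚ_[p]) ^ 2 *
    ((Algebra.norm ℚ_[p] y * (p : ℚ_[p]) ^ (-k) - 1) / (p : ℚ_[p]) ^ 2))
  rw [mul_div_cancel₀ _ (pow_ne_zero 2 hp0), add_sub_cancel, zpow_neg]
  have := zpow_ne_zero k hp0
  field_simp

end Pool.Agent.L7h60.SG.H1

/-- **[H1]** -/
theorem Pool.Agent.L7h60.SG.s_H1 : Pool.Agent.L7h48.SG.S_H1 := Pool.Agent.L7h60.SG.H1.s_H1
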