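import Mathlib
import Pool.Agent.L7h60.SG.Kum

/-!
# Project SG (helper48, MP_b4b3cb_nt): [NA], the norm lemma over a local field, part a
-/

set_option autoImplicit false
set_option linter.unusedSectionVars false

namespace Pool.Agent.L7h60.SG

open Pool.Agent.L7h48.SG
open Pool.Agent.Y715.Nr Pool.Agent.W237.RK

lemma sum_range_zmod (p : ℕ) [Fact p.Prime] (hp : p ≠ 2) :
    ∑ i ∈ Finset.range p, (i : ZMod p) = 0 := by
  have hpp : p.Prime := Fact.out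
  rw [← Nat.cast_sum, Finset.sum_range_id, ZMod.natCast_eq_zero_iff]
  obtain ⟨k, hk⟩ := hpp.odd_of_ne_two hp
  refine ⟨k, ?_⟩
  have h1 : p * (p - 1) = (p * k) * 2 := by
    have : p - 1 = 2 * k := by omega
    rw [this]
    ring
  rw [h1, Nat.mul_div_cancel _ (by norm_num)]

/-- the general form of [NA] -/
theorem na_gen {K Ω : Type} [Field K] [Field Ω] [Algebra K Ω] [IsGalois K Ω] (p : ℕ)
    [Fact p.Prime] (hp : p ≠ 2) (V : Subgroup (Ω ≃ₐ[K] Ω)) (hV : IsOpen (V : Set (Ω ≃ₐ[K] Ω)))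
    (ζ : Ω) (hζ : IsPrimitiveRoot ζ p) (hfix : ∀ τ ∈ V, τ ζ = ζ)
    (χ : (Ω ≃ₐ[K] Ω) → ZMod p) (hχ : χ ∈ HP p V) (b : (Ω ≃ₐ[K] Ω) → ZMod p) (hb : b ∈ HP p V)
    (σ : Ω ≃ₐ[K] Ω) (hσ : σ ∈ V) (hχσ : χ σ = 1) (β : Ω) (hβ : β ≠ 0)
    (hβb : ∀ τ ∈ V, τ β = zc ζ (b τ) * β) (hB : IsB p V (cup p χ b)) :
    ∃ z : Ω, z ≠ 0 ∧ (∀ τ ∈ V, χ τ = 0 → τ z = z) ∧
      ∏ i ∈ Finset.range p, (σ ^ i) z = β ^ p := by
  classical
  have h1ζ := hζ.pow_eq_one
  obtain ⟨a, ha, hab⟩ := hB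
  set Q := Kr p hχ with hQ
  have hQo : IsOpen (Q : Set (Ω ≃ₐ[K] Ω)) := isOpen_Kr p hV hχ
  have hQV : ∀ u ∈ Q, u ∈ V := fun u hu => hu.1
  have hQχ : ∀ u ∈ Q, χ u = 0 := fun u hu => hu.2
  have rel : ∀ x ∈ V, ∀ y ∈ V, χ x * b y = a x + a y - a (x * y) := fun x hx y hy => hab x hx y hy
  -- the homomorphism `f`
  set f : (Ω ≃ₐ[K] Ω) → ZMod p := fun u => if u ∈ Q then -a u else 0 with hf
  have hfQ : ∀ u ∈ Q, f u = -a u := fun u hu => if_pos hu
  have hfHP : f ∈ HP p Q := by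
    refine ⟨?_, ?_, fun x hx => if_neg hx⟩
    · have hQc : IsClosed (Q : Set (Ω ≃ₐ[K] Ω)) := Subgroup.isClosed_of_isOpen Q hQo
      rw [IsLocallyConstant.iff_exists_open]
      intro x
      obtain ⟨U, hU, hxU, hUa⟩ := (IsLocallyConstant.iff_exists_open _).1 ha x
      by_cases hx : x ∈ Q
      · refine ⟨U ∩ Q, hU.inter hQo, ⟨hxU, hx⟩, ?_⟩
        rintro y ⟨hy, hyQ⟩
        have hyQ' : y ∈ Q := hyQ
        rw [hf]
        simp only [if_pos hx, if_pos hyQ', hUa y hy]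
      · refine ⟨(Q : Set (Ω ≃ₐ[K] Ω))ᶜ, hQc.isOpen_compl, hx, ?_⟩
        intro y hy
        have hy' : y ∉ Q := hy
        rw [hf]
        simp only [if_neg hx, if_neg hy']
    · intro x hx y hy
      rw [hfQ x hx, hfQ y hy, hfQ _ (Q.mul_mem hx hy)]
      have h1 := rel x (hQV x hx) y (hQV y hy)
      rw [hQχ x hx, zero_mul] at h1
      linear_combination -h1
  obtain ⟨g, hg0, hg⟩ := kummer p Q hQo ζ hζ (fun τ hτ => hfix τ (hQV τ hτ)) f hfHP
  -- powers of `σ`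
  have ha1 : a 1 = 0 := by
    have h1 := rel 1 V.one_mem 1 V.one_mem
    rw [HP.one p hχ, zero_mul, mul_one] at h1
    linear_combination -h1
  have haσ : ∀ n : ℕ, a (σ ^ n) = n * a σ - (∑ i ∈ Finset.range n, (i : ZMod p)) * b σ := by
    intro n
    induction n with
    | zero => simp [ha1]
    | succ n ih =>
      have h1 := rel σ hσ (σ ^ n) (V.pow_mem hσ n)
      rw [hχσ, one_mul, HP.pow p hb hσ, ← pow_succ'] at h1
      rw [Finset.sum_range_succ]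
      push_cast
      linear_combination h1 + ih
  have hσp : σ ^ p ∈ Q := ⟨V.pow_mem hσ p, by rw [HP.pow p hχ hσ, CharP.cast_eq_zero, zero_mul]⟩
  have hfσp : f (σ ^ p) = 0 := by
    rw [hfQ _ hσp, haσ, CharP.cast_eq_zero, sum_range_zmod p hp]
    ring
  -- the element `z`
  have hσg : σ g ≠ 0 := fun h => hg0 ((map_eq_zero σ).1 h)
  refine ⟨σ g * β / g, div_ne_zero (mul_ne_zero hσg hβ) hg0, ?_, ?_⟩
  · intro u hu hχu
    have huQ : u ∈ Q := ⟨hu, hχu⟩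
    set u' := σ⁻¹ * u * σ with hu'
    have huV : u' ∈ V := V.mul_mem (V.mul_mem (V.inv_mem hσ) hu) hσ
    have huQ' : u' ∈ Q := by
      refine ⟨huV, ?_⟩
      rw [hu', HP.mul p hχ (V.mul_mem (V.inv_mem hσ) hu) hσ, HP.mul p hχ (V.inv_mem hσ) hu,
        HP.inv p hχ hσ, hχu]
      ring
    have hbu' : b u' = b u := by
      rw [hu', HP.mul p hb (V.mul_mem (V.inv_mem hσ) hu) hσ, HP.mul p hb (V.inv_mem hσ) hu,
        HP.inv p hb hσ]
      ring
    have e1 : σ * u' = u * σ := by rw [hu']; group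
    have h1 := rel σ hσ u' huV
    have h2 := rel u hu σ hσ
    rw [hχσ, one_mul, e1, hbu'] at h1
    rw [hχu, zero_mul] at h2
    have h3 : f u' + b u = f u := by
      rw [hfQ u' huQ', hfQ u huQ]
      linear_combination h1 - h2
    have h4 : u (σ g) = zc ζ (f u') * σ g := by
      rw [← AlgEquiv.mul_apply, ← e1, AlgEquiv.mul_apply, hg u' huQ', map_mul,
        map_zc σ (hfix σ hσ)]
    rw [map_div₀, map_mul, h4, hβb u hu, hg u huQ, ← h3, zc_add h1ζ]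
    have n1 := zc_ne h1ζ (f u')
    have n2 := zc_ne h1ζ (b u)
    field_simp
  · have h1 : ∀ i : ℕ, (σ ^ i) (σ g * β / g) =
        (σ ^ (i + 1)) g / (σ ^ i) g * (zc ζ ((i : ZMod p) * b σ) * β) := by
      intro i
      rw [map_div₀, map_mul, hβb _ (V.pow_mem hσ i), HP.pow p hb hσ, pow_succ, AlgEquiv.mul_apply]
      ring
    have h2 : ∀ n : ℕ, ∏ i ∈ Finset.range n, (σ ^ (i + 1)) g / (σ ^ i) g = (σ ^ n) g / g := by
      intro n
      induction n with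
      | zero => simp [hg0]
      | succ n ih =>
        rw [Finset.prod_range_succ, ih]
        have h3 : (σ ^ n) g ≠ 0 := fun h => hg0 ((map_eq_zero (σ ^ n)).1 h)
        field_simp
    rw [Finset.prod_congr rfl (fun i _ => h1 i), Finset.prod_mul_distrib, h2,
      Finset.prod_mul_distrib, ← zc_sum h1ζ, ← Finset.sum_mul, sum_range_zmod p hp, zero_mul,
      zc_zero, one_mul, Finset.prod_const, Finset.card_range, hg _ hσp, hfσp, zc_zero, one_mul,
      div_self hg0, one_mul]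

/-- **[NA]** -/
theorem s_NA : S_NA := by
  intro p _ hp V hV ζ hζ hfix χ hχ b hb σ hσ hχσ β hβ hβb hB
  exact na_gen p hp V hV ζ hζ hfix χ hχ b hb σ hσ hχσ β hβ hβb hB

end Pool.Agent.L7h60.SG
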