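import Mathlib
import Pool.Agent.L7h60.SG.Na

/-!
# Project SG (helper48, MP_b4b3cb_nt): [NB], the norm property of the local groups
-/

set_option autoImplicit false
set_option linter.unusedSectionVars false

namespace Pool.Agent.L7h60.SG

open Pool.Agent.L7h48.SG
open Pool.Agent.Y715.Nr Pool.Agent.W237.RK

/-- the stabilizer of an element is open -/
lemma isOpen_fix {K Ω : Type} [Field K] [Field Ω] [Algebra K Ω] [IsGalois K Ω] (w : Ω) :
    ∃ S : Subgroup (Ω ≃ₐ[K] Ω), IsOpen (S : Set (Ω ≃ₐ[K] Ω)) ∧ ∀ τ ∈ S, τ w = w := by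
  have : FiniteDimensional K (IntermediateField.adjoin K {w}) :=
    IntermediateField.adjoin.finiteDimensional (Algebra.IsIntegral.isIntegral w)
  refine ⟨(IntermediateField.adjoin K {w}).fixingSubgroup,
    IntermediateField.fixingSubgroup_isOpen _, fun τ hτ => ?_⟩
  exact (IntermediateField.mem_fixingSubgroup_iff _ _).1 hτ w
    (IntermediateField.mem_adjoin_simple_self K w)

/-- the general form of [NB] -/
theorem nb_gen {K Ω : Type} [Field K] [Field Ω] [Algebra K Ω] [IsGalois K Ω] [IsAlgClosed Ω]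
    [CharZero Ω] (p : ℕ) [Fact p.Prime] (hp : p ≠ 2) (V : Subgroup (Ω ≃ₐ[K] Ω))
    (hV : IsOpen (V : Set (Ω ≃ₐ[K] Ω))) (hμ : ∀ τ ∈ V, ∀ ζ : Ω, ζ ^ p = 1 → τ ζ = ζ) :
    NR p V := by
  classical
  have hpp : p.Prime := Fact.out
  intro χ hχ b hb hσ' hB
  obtain ⟨σ, hσ, hχσ⟩ := hσ'
  obtain ⟨ζ, hζ⟩ := HasEnoughRootsOfUnity.exists_primitiveRoot Ω p
  have h1ζ := hζ.pow_eq_one
  have hfix : ∀ τ ∈ V, τ ζ = ζ := fun τ hτ => hμ τ hτ ζ h1ζ
  obtain ⟨β, hβ, hβb⟩ := kummer p V hV ζ hζ hfix b hb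
  obtain ⟨z, hz, hzQ, hzN⟩ := na_gen p hp V hV ζ hζ hfix χ hχ b hb σ hσ hχσ β hβ hβb hB
  obtain ⟨w, hw⟩ := IsAlgClosed.exists_pow_nat_eq z hpp.pos
  have hw0 : w ≠ 0 := by
    rintro rfl
    rw [zero_pow hpp.ne_zero] at hw
    exact hz hw.symm
  -- the elements `w_t`
  set W : ZMod p → Ω := fun t => (σ ^ t.val) w with hW
  have hW0 : ∀ t, W t ≠ 0 := fun t h => hw0 ((map_eq_zero (σ ^ t.val)).1 h)
  have hval : ∀ t : ZMod p, ((t.val : ℕ) : ZMod p) = t := fun t => by
    rw [ZMod.natCast_val, ZMod.cast_id]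
  -- the action on the `p`-th powers
  have hact : ∀ g ∈ V, ∀ t, (g (W t)) ^ p = (W (t + χ g)) ^ p := by
    intro g hg t
    have e1 : (g (W t)) ^ p = (g * σ ^ t.val) z := by
      rw [← map_pow, hW]
      simp only
      rw [← map_pow, hw, AlgEquiv.mul_apply]
    have e2 : (W (t + χ g)) ^ p = (σ ^ (t + χ g).val) z := by
      rw [hW]
      simp only
      rw [← map_pow, hw]
    have hσ1 := V.pow_mem hσ (t + χ g).val
    have hσ2 := V.pow_mem hσ t.val
    have e3 : g * σ ^ t.val = σ ^ (t + χ g).val * ((σ ^ (t + χ g).val)⁻¹ * g * σ ^ t.val) := by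
      group
    rw [e1, e2, e3, AlgEquiv.mul_apply]
    congr 1
    refine hzQ _ (V.mul_mem (V.mul_mem (V.inv_mem hσ1) hg) hσ2) ?_
    rw [HP.mul p hχ (V.mul_mem (V.inv_mem hσ1) hg) hσ2, HP.mul p hχ (V.inv_mem hσ1) hg,
      HP.inv p hχ hσ1, HP.pow p hχ hσ, HP.pow p hχ hσ, hχσ, mul_one, mul_one, hval, hval]
    ring
  have hy : ∀ g : Ω ≃ₐ[K] Ω, ∀ t : ZMod p, ∃ y : ZMod p, g ∈ V →
      g (W t) = zc ζ y * W (t + χ g) := by
    intro g t
    by_cases hg : g ∈ V
    · have h1 : (g (W t) / W (t + χ g)) ^ p = 1 := by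
        rw [div_pow, hact g hg t, div_self (pow_ne_zero _ (hW0 _))]
      obtain ⟨y, hy⟩ := exists_zc hζ h1
      refine ⟨y, fun _ => ?_⟩
      rw [← hy, div_mul_cancel₀ _ (hW0 _)]
    · exact ⟨0, fun h => absurd h hg⟩
  choose y hy using hy
  have hyadd : ∀ g ∈ V, ∀ h ∈ V, ∀ t, y (g * h) t = y h t + y g (t + χ h) := by
    intro g hg h hh t
    apply zc_inj hζ
    have h1 := hy (g * h) t (V.mul_mem hg hh)
    rw [AlgEquiv.mul_apply, hy h t hh, map_mul, map_zc g (hfix g hg), hy g _ hg,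
      HP.mul p hχ hg hh, ← mul_assoc, ← zc_add h1ζ] at h1
    have h2 : t + (χ g + χ h) = t + χ h + χ g := by ring
    rw [h2] at h1
    exact (mul_right_cancel₀ (hW0 _) h1).symm
  refine ⟨fun g t => if g ∈ V then y g (-t - χ g) else 0, ⟨?_, ?_⟩, ?_⟩
  · -- locally constant
    rw [IsLocallyConstant.iff_exists_open]
    intro g
    by_cases hg : g ∈ V
    · choose S hSo hS using fun t : ZMod p => isOpen_fix (K := K) (W t)
      set U : Subgroup (Ω ≃ₐ[K] Ω) := Kr p hχ ⊓ ⨅ t, S t with hU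
      have hUo : IsOpen (U : Set (Ω ≃ₐ[K] Ω)) := by
        rw [hU, Subgroup.coe_inf, Subgroup.coe_iInf]
        exact (isOpen_Kr p hV hχ).inter (isOpen_iInter_of_finite hSo)
      refine ⟨(fun τ => g⁻¹ * τ) ⁻¹' (U : Set (Ω ≃ₐ[K] Ω)),
        hUo.preimage (continuous_const.mul continuous_id), ?_, ?_⟩
      · show g⁻¹ * g ∈ U
        rw [inv_mul_cancel]
        exact U.one_mem
      · intro τ hτ
        have hτU : g⁻¹ * τ ∈ U := hτ
        set u := g⁻¹ * τ with hu
        have hτg : τ = g * u := by rw [hu]; group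
        have huV : u ∈ V := ((mem_Kr p hχ u).1 hτU.1).1
        have hχu : χ u = 0 := ((mem_Kr p hχ u).1 hτU.1).2
        have huS : ∀ t, u (W t) = W t := fun t => hS t u (Subgroup.mem_iInf.1 hτU.2 t)
        have hyu : ∀ t, y u t = 0 := by
          intro t
          apply zc_inj hζ
          have h1 := hy u t huV
          rw [huS, hχu, add_zero] at h1
          rw [zc_zero]
          exact mul_right_cancel₀ (hW0 t) (by rw [one_mul]; exact h1.symm)
        funext t
        rw [hτg, if_pos (V.mul_mem hg huV), if_pos hg, hyadd g hg u huV, hyu, zero_add,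
          HP.mul p hχ hg huV, hχu, add_zero, add_zero]
    · have hVc : IsClosed (V : Set (Ω ≃ₐ[K] Ω)) := Subgroup.isClosed_of_isOpen V hV
      refine ⟨(V : Set (Ω ≃ₐ[K] Ω))ᶜ, hVc.isOpen_compl, hg, fun τ hτ => ?_⟩
      have hτ' : τ ∉ V := hτ
      funext t
      rw [if_neg hg, if_neg hτ']
  · intro g hg h hh t
    simp only [if_pos hg, if_pos hh, if_pos (V.mul_mem hg hh)]
    rw [hyadd g hg h hh, HP.mul p hχ hg hh]
    have e1 : -t - (χ g + χ h) = -(t + χ g) - χ h := by ring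
    have e2 : -t - (χ g + χ h) + χ h = -t - χ g := by ring
    rw [e2, e1, add_comm]
  · intro g hg
    simp only [if_pos hg]
    have h1 : ∑ t, y g (-t - χ g) = ∑ t, y g t := by
      refine Fintype.sum_equiv ((Equiv.neg (ZMod p)).trans (Equiv.subRight (χ g))) _ _ ?_
      intro t
      rfl
    rw [h1]
    apply zc_inj hζ
    -- the product of the `w_t`
    set P := ∏ t, W t with hP
    have hP0 : P ≠ 0 := Finset.prod_ne_zero_iff.2 fun t _ => hW0 t
    have hPp : P ^ p = β ^ p := by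
      rw [hP, ← Finset.prod_pow, ← hzN]
      have e1 : ∀ t : ZMod p, (W t) ^ p = (σ ^ t.val) z := by
        intro t
        rw [hW]
        simp only
        rw [← map_pow, hw]
      rw [Finset.prod_congr rfl (fun t _ => e1 t)]
      have : NeZero p := ⟨hpp.ne_zero⟩
      refine (Finset.prod_bij (fun (t : ZMod p) _ => t.val) ?_ ?_ ?_ ?_)
      · intro t _
        exact Finset.mem_range.2 (ZMod.val_lt t)
      · intro t _ t' _ h
        exact ZMod.val_injective p h
      · intro i hi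
        exact ⟨(i : ZMod p), Finset.mem_univ _, ZMod.val_cast_of_lt (Finset.mem_range.1 hi)⟩
      · intro t _
        rfl
    obtain ⟨j, hj⟩ : ∃ j : ZMod p, P = zc ζ j * β := by
      obtain ⟨j, hj⟩ := exists_zc hζ (x := P / β) (by
        rw [div_pow, hPp, div_self (pow_ne_zero _ hβ)])
      exact ⟨j, by rw [← hj, div_mul_cancel₀ _ hβ]⟩
    have e2 : g P = zc ζ (∑ t, y g t) * P := by
      rw [hP, map_prod, Finset.prod_congr rfl (fun t _ => hy g t hg), Finset.prod_mul_distrib,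
        ← zc_sum h1ζ]
      congr 1
      exact Fintype.prod_equiv (Equiv.addRight (χ g)) _ _ fun t => rfl
    have e3 : g P = zc ζ (b g) * P := by
      rw [hj, map_mul, map_zc g (hfix g hg), hβb g hg]
      ring
    exact mul_right_cancel₀ hP0 (e2.symm.trans e3)

/-- **[NB]** -/
theorem s_NB : S_NB := by
  intro p _ hp V hV hμ
  exact nb_gen p hp V hV hμ

end Pool.Agent.L7h60.SG
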