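import Mathlib
import Pool.Agent.L7h60.SG.Kum

/-!
# Project SG (helper48, MP_b4b3cb_nt): [NG], the norm property of the open subgroups of `P`
-/

set_option autoImplicit false
set_option linter.unusedSectionVars false

namespace Pool.Agent.L7h60.SG

open Pool.Agent.L7h48.SG
open Pool.Agent.Y715.Gi (QB KK GK)
open Pool.Agent.Y715.Nr Pool.Agent.W237.RK
open Pool.Agent.Y715.Df (Cmp)
open Pool.Agent.Z384 (II DD DDs)

section abs

variable (p : ℕ) [Fact p.Prime] {A G : Type} [Group A] [TopologicalSpace A] [Group G]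
  [TopologicalSpace G]

/-- the pull-back of a homomorphism -/
lemma HP.comap {R : A →* G} (hR : Continuous R) {U : Subgroup G} {φ : G → ZMod p}
    (h : φ ∈ HP p U) : (fun a => φ (R a)) ∈ HP p (U.comap R) := by
  refine ⟨h.1.comp_continuous hR, fun x hx y hy => ?_, fun x hx => h.2.2 _ hx⟩
  simp only
  rw [map_mul]
  exact h.2.1 _ hx _ hy

/-- the pull-back as a linear map -/
def pb {R : A →* G} (hR : Continuous R) (U : Subgroup G) : HP p U →ₗ[ZMod p] HP p (U.comap R) where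
  toFun φ := ⟨fun a => (φ : G → ZMod p) (R a), HP.comap p hR φ.2⟩
  map_add' _ _ := rfl
  map_smul' _ _ := rfl

lemma pb_injective {R : A →* G} (hR : Continuous R) (hs : Function.Surjective R)
    (U : Subgroup G) : Function.Injective (pb p hR U) := by
  intro φ ψ h
  apply Subtype.ext
  funext g
  obtain ⟨a, rfl⟩ := hs g
  exact congrFun (congrArg Subtype.val h) a

/-- all homomorphisms of the preimage are pull-backs, for dimensional reasons -/
lemma pb_surjective {R : A →* G} (hR : Continuous R) (hs : Function.Surjective R)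
    (U : Subgroup G) (hU : Module.finrank (ZMod p) (HP p U) = U.index + 2)
    (hV : Module.Finite (ZMod p) (HP p (U.comap R)))
    (hV2 : Module.finrank (ZMod p) (HP p (U.comap R)) ≤ (U.comap R).index + 2) :
    Function.Surjective (pb p hR U) := by
  have h1 : (U.comap R).index = U.index := U.index_comap_of_surjective hs
  have h2 := LinearMap.finrank_range_of_inj (pb_injective p hR hs U)
  rw [← LinearMap.range_eq_top]
  apply Submodule.eq_top_of_finrank_eq
  apply le_antisymm (Submodule.finrank_le _)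
  rw [h2, hU, ← h1]
  exact hV2

/-- the descent of the norm property -/
theorem ng_gen [IsTopologicalGroup A] [CompactSpace A] [T2Space G] {R : A →* G}
    (hR : Continuous R) (hs : Function.Surjective R) (U : Subgroup G)
    (hUo : IsOpen (U : Set G))
    (hsur : ∀ Q : Subgroup G, IsOpen (Q : Set G) → Q ≤ U → Function.Surjective (pb p hR Q))
    (hN : NR p (U.comap R)) : NR p U := by
  classical
  intro χ hχ b hb hσ hB
  obtain ⟨σ, hσ, hχσ⟩ := hσ
  obtain ⟨a, ha, hab⟩ := hB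
  obtain ⟨τ, rfl⟩ := hs σ
  set V := U.comap R with hV
  have hχ' := HP.comap p hR hχ
  have hb' := HP.comap p hR hb
  obtain ⟨x', ⟨hx1, hx2'⟩, hx3⟩ := hN _ hχ' _ hb' ⟨τ, hσ, hχσ⟩
    ⟨fun g => a (R g), ha.comp_continuous hR, fun x hx y hy => by
      have := hab (R x) hx (R y) hy
      simp only [cup] at this ⊢
      rw [map_mul]
      exact this⟩
  have hx2 : ∀ g ∈ V, ∀ h ∈ V, ∀ t, x' (g * h) t = x' g t + x' h (t + χ (R g)) := hx2'
  -- the kernel of `χ`
  have hQo := isOpen_Kr p hUo hχ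
  have hψ : (fun g => if g ∈ (Kr p hχ).comap R then x' g 0 else 0) ∈ HP p ((Kr p hχ).comap R) := by
    have hQA : IsOpen (((Kr p hχ).comap R : Subgroup A) : Set A) := hQo.preimage hR
    have hQc : IsClosed (((Kr p hχ).comap R : Subgroup A) : Set A) :=
      Subgroup.isClosed_of_isOpen _ hQA
    refine ⟨?_, ?_, fun g hg => if_neg hg⟩
    · rw [IsLocallyConstant.iff_exists_open]
      intro g
      obtain ⟨O, hO, hgO, hOx⟩ := (IsLocallyConstant.iff_exists_open _).1 hx1 g
      by_cases hg : g ∈ (Kr p hχ).comap R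
      · refine ⟨O ∩ ((Kr p hχ).comap R : Subgroup A), hO.inter hQA, ⟨hgO, hg⟩, ?_⟩
        rintro h ⟨hh, hhQ⟩
        have hhQ' : h ∈ (Kr p hχ).comap R := hhQ
        simp only [if_pos hg, if_pos hhQ', hOx h hh]
      · refine ⟨(((Kr p hχ).comap R : Subgroup A) : Set A)ᶜ, hQc.isOpen_compl, hg, fun h hh => ?_⟩
        have hh' : h ∉ (Kr p hχ).comap R := hh
        simp only [if_neg hg, if_neg hh']
    · intro g hg h hh
      simp only [if_pos hg, if_pos hh, if_pos (mul_mem hg hh)]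
      rw [hx2 g hg.1 h hh.1]
      have h1 : χ (R g) = 0 := hg.2
      rw [h1, add_zero]
  obtain ⟨⟨ψ, hψQ⟩, hψe⟩ := hsur (Kr p hχ) hQo (fun g hg => hg.1) ⟨_, hψ⟩
  have hψe' : ∀ g, ψ (R g) = if g ∈ (Kr p hχ).comap R then x' g 0 else 0 := fun g =>
    congrFun (congrArg Subtype.val hψe) g
  -- vanishing on the kernel of `R`
  have hk0 : ∀ k, R k = 1 → x' k 0 = 0 := by
    intro k hk
    have h1 := hψe' k
    have h2 : k ∈ (Kr p hχ).comap R := by
      show R k ∈ Kr p hχ
      rw [hk]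
      exact (Kr p hχ).one_mem
    rw [if_pos h2, hk, HP.one p hψQ] at h1
    exact h1.symm
  have hkV : ∀ k, R k = 1 → k ∈ V := by
    intro k hk
    show R k ∈ U
    rw [hk]
    exact U.one_mem
  have hk : ∀ k, R k = 1 → ∀ t, x' k t = 0 := by
    intro k hk t
    set g := τ ^ t.val with hg
    have hgV : g ∈ V := V.pow_mem hσ _
    have hχg : χ (R g) = t := by
      have h1 : χ (R (τ ^ t.val)) = (t.val : ZMod p) * χ (R τ) :=
        HP.pow p hχ' (x := τ) hσ t.val
      rw [hg, h1, hχσ, mul_one, ZMod.natCast_val, ZMod.cast_id]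
    have hgk : R (g * k * g⁻¹) = 1 := by
      rw [map_mul, map_mul, hk, mul_one, map_inv, mul_inv_cancel]
    have h1 := hk0 _ hgk
    have hχk : χ (R k) = 0 := by rw [hk]; exact HP.one p hχ
    rw [hx2 (g * k) (V.mul_mem hgV (hkV k hk)) g⁻¹ (V.inv_mem hgV), hx2 g hgV k (hkV k hk),
      map_mul, hk, mul_one, hχg, zero_add] at h1
    have h2 := hx2 g hgV g⁻¹ (V.inv_mem hgV) 0
    rw [mul_inv_cancel, hk0 1 (map_one R), hχg, zero_add] at h2
    linear_combination h1 + h2
  have hcos : ∀ g h, R g = R h → g ∈ V → x' g = x' h := by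
    intro g h hgh hg
    have h1 : R (g⁻¹ * h) = 1 := by rw [map_mul, map_inv, hgh, inv_mul_cancel]
    have h2 : h = g * (g⁻¹ * h) := by group
    funext t
    conv_rhs => rw [h2]
    rw [hx2 g hg _ (hkV _ h1), hk _ h1, add_zero]
  -- the function on `G`
  choose c hc using hs
  set x : G → ZMod p → ZMod p := fun g => if g ∈ U then x' (c g) else 0 with hx
  have hxR : ∀ g, x (R g) = if g ∈ V then x' g else 0 := by
    intro g
    rw [hx]
    by_cases hg : g ∈ V
    · have hg' : R g ∈ U := hg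
      simp only [if_pos hg, if_pos hg']
      exact (hcos g (c (R g)) (hc (R g)).symm hg).symm
    · have hg' : R g ∉ U := hg
      simp only [if_neg hg, if_neg hg']
  have hquot : Topology.IsQuotientMap R := (hR.isClosedMap).isQuotientMap hR fun g => ⟨c g, hc g⟩
  refine ⟨x, ⟨?_, ?_⟩, ?_⟩
  · have h1 : IsLocallyConstant (fun g => x (R g)) := by
      have hVo : IsOpen (V : Set A) := hUo.preimage hR
      have hVc : IsClosed (V : Set A) := Subgroup.isClosed_of_isOpen _ hVo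
      rw [IsLocallyConstant.iff_exists_open]
      intro g
      obtain ⟨O, hO, hgO, hOx⟩ := (IsLocallyConstant.iff_exists_open _).1 hx1 g
      by_cases hg : g ∈ V
      · refine ⟨O ∩ V, hO.inter hVo, ⟨hgO, hg⟩, ?_⟩
        rintro h ⟨hh, hhV⟩
        have hhV' : h ∈ V := hhV
        rw [hxR, hxR, if_pos hg, if_pos hhV', hOx h hh]
      · refine ⟨(V : Set A)ᶜ, hVc.isOpen_compl, hg, fun h hh => ?_⟩
        have hh' : h ∉ V := hh
        rw [hxR, hxR, if_neg hg, if_neg hh']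
    intro s
    rw [← hquot.isOpen_preimage]
    exact h1 s
  · intro g hg h hh t
    obtain ⟨g', rfl⟩ : ∃ g', R g' = g := ⟨c g, hc g⟩
    obtain ⟨h', rfl⟩ : ∃ h', R h' = h := ⟨c h, hc h⟩
    have hg' : g' ∈ V := hg
    have hh' : h' ∈ V := hh
    rw [← map_mul, hxR, hxR, hxR, if_pos hg', if_pos hh', if_pos (V.mul_mem hg' hh')]
    exact hx2 g' hg' h' hh' t
  · intro g hg
    obtain ⟨g', rfl⟩ : ∃ g', R g' = g := ⟨c g, hc g⟩
    have hg' : g' ∈ V := hg
    rw [hxR, if_pos hg']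
    exact hx3 g' hg'

end abs

/-- **[NG]** -/
theorem s_NG (hC2 : S_C2) (hE0 : S_E0) (hE1 : S_E1) (hE2 : S_E2) (hNB : S_NB) : S_NG := by
  classical
  intro p _ s d hspl ι₀ 𝓛 hlev U hU hUP
  obtain ⟨hcomp, hT2, -, hPo, -, -, hPmem, -, -, -, -, hdec⟩ := hE0 p s d hspl ι₀ 𝓛 hlev
  obtain ⟨hdim, -, -⟩ := hE2 p s d hspl ι₀ 𝓛 hlev
  obtain ⟨r, hr, hcmp, hrange⟩ := hE1 p s d hspl ι₀
  set R : Au p →* Gs p 𝓛 := (QuotientGroup.mk' (Nf p 𝓛)).comp r with hR
  have hRc : Continuous R := continuous_quotient_mk'.comp hr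
  have hRs : Function.Surjective R := by
    intro q
    obtain ⟨g, rfl⟩ := QuotientGroup.mk'_surjective _ q
    obtain ⟨δ, hδ, hδg⟩ := hdec g
    rw [← hrange] at hδ
    obtain ⟨τ, rfl⟩ := hδ
    exact ⟨τ, QuotientGroup.eq.2 hδg⟩
  -- roots of unity
  have hμ : ∀ Q : Subgroup (Gs p 𝓛), Q ≤ Pg p 𝓛 → ∀ τ ∈ Q.comap R, ∀ ζ : PadicAlgCl p,
      ζ ^ p = 1 → τ ζ = ζ := by
    intro Q hQ τ hτ ζ hζ
    have h1 : r τ ∈ 𝓛 := (hPmem (r τ)).1 (hQ hτ)
    obtain ⟨ξ, hξ⟩ := HasEnoughRootsOfUnity.exists_primitiveRoot QB p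
    have h2 : IsPrimitiveRoot (ι₀ ξ) p := hξ.map_of_injective ι₀.injective
    obtain ⟨i, -, hi⟩ := h2.eq_pow_of_pow_eq_one hζ
    have h3 : τ (ι₀ ξ) = ι₀ ((r τ) ξ) := hcmp τ ξ
    rw [← hi, map_pow, h3, hlev.mu _ h1 ξ hξ.pow_eq_one]
  refine ng_gen p hRc hRs U hU ?_ (hNB p hspl.odd _ (hU.preimage hRc) (hμ U hUP))
  intro Q hQo hQU
  obtain ⟨h1, h2⟩ := hC2 p hspl.odd (Q.comap R) (hQo.preimage hRc) (hμ Q (hQU.trans hUP))
  exact pb_surjective p hRc hRs Q (hdim Q hQo (hQU.trans hUP)).2 h1 h2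

end Pool.Agent.L7h60.SG
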