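import Mathlib
import Pool.Agent.L7h48.SG.Stm
import Pool.Agent.K7.H15.PS.D2

/-!
# Project SG (helper48, MP_b4b3cb_nt): [D2], the `p`-units of the fields
-/

set_option autoImplicit false
set_option linter.unusedSectionVars false

namespace Pool.Agent.L7h60.SG.D2

open Pool.Agent.L7h48.SG
open Pool.Agent.Y715.Gi (QB KK GK i₀_mem gk_fix)
open Pool.Agent.Y715.Nr Pool.Agent.W237.RK
open Pool.Agent.Z384 (II DD DDs Fld exists_conj)
open Pool.Agent.K7.H15.PS (finrank_KK)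
open Polynomial
open scoped NumberField

/-- the arithmetic of a split prime -/
lemma split_arith {p : ℕ} [Fact p.Prime] {d : ℕ} (hd : 0 < d)
    (h : ∃ r : ℚ_[p], r ^ 2 = -(d : ℚ_[p])) :
    ∃ (v d' : ℕ) (n k : ℤ), d = p ^ (2 * v) * d' ∧ ¬ (p : ℤ) ∣ n ∧ n ^ 2 + d' = p * k := by
  have hpp : p.Prime := Fact.out
  obtain ⟨r, hr⟩ := h
  obtain ⟨e, d', hd', rfl⟩ := Nat.exists_eq_pow_mul_and_not_dvd hd.ne' p hpp.one_lt.ne'
  have hp0 : (p : ℚ_[p]) ≠ 0 := by exact_mod_cast hpp.ne_zero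
  have hpR : (p : ℝ) ≠ 0 := by exact_mod_cast hpp.ne_zero
  have hp1 : (1 : ℝ) < p := by exact_mod_cast hpp.one_lt
  have hr0 : r ≠ 0 := by
    rintro rfl
    rw [zero_pow two_ne_zero, eq_comm, neg_eq_zero] at hr
    exact hd.ne' (by exact_mod_cast hr)
  have hdn : ‖((d' : ℕ) : ℚ_[p])‖ = 1 := by
    have h1 := Padic.norm_int_le_one (p := p) (d' : ℤ)
    have h2 : ¬ ‖((d' : ℤ) : ℚ_[p])‖ < 1 := by
      rw [Padic.norm_intCast_lt_one_iff]
      intro h3
      exact hd' (by exact_mod_cast h3)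
    have h3 : ‖((d' : ℤ) : ℚ_[p])‖ = 1 := le_antisymm h1 (not_lt.1 h2)
    simpa using h3
  have hnorm : ‖r‖ ^ 2 = (p : ℝ) ^ (-(e : ℤ)) := by
    rw [← norm_pow, hr, norm_neg]
    push_cast
    rw [norm_mul, hdn, mul_one, norm_pow, Padic.norm_p, zpow_neg, zpow_natCast, inv_pow]
  rw [Padic.norm_eq_zpow_neg_valuation hr0, ← zpow_natCast, ← zpow_mul] at hnorm
  have hev : -r.valuation * ((2 : ℕ) : ℤ) = -(e : ℤ) :=
    zpow_right_injective₀ (by positivity) hp1.ne' hnorm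
  have hv0 : 0 ≤ r.valuation := by omega
  obtain ⟨v, hv⟩ := Int.eq_ofNat_of_zero_le hv0
  have he : e = 2 * v := by
    rw [hv] at hev
    push_cast at hev
    omega
  subst he
  set u : ℚ_[p] := r / (p : ℚ_[p]) ^ v with hu
  have hu2 : u ^ 2 = -(d' : ℚ_[p]) := by
    rw [hu, div_pow, hr]
    push_cast
    field_simp
    ring
  have hun : ‖u‖ = 1 := by
    have h1 : ‖u‖ ^ 2 = 1 := by rw [← norm_pow, hu2, norm_neg, hdn]
    exact (pow_eq_one_iff_of_nonneg (norm_nonneg _) two_ne_zero).1 h1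
  set w : ℤ_[p] := ⟨u, hun.le⟩ with hw
  have h5 : ‖w - (w.zmodRepr : ℤ_[p])‖ < 1 := by
    have h6 := PadicInt.sub_zmodRepr_mem (p := p) w
    rwa [IsLocalRing.mem_maximalIdeal, PadicInt.mem_nonunits] at h6
  set n : ℕ := w.zmodRepr with hn
  have h6 : ‖u - (n : ℚ_[p])‖ < 1 := by
    have h7 : ((w - (n : ℤ_[p]) : ℤ_[p]) : ℚ_[p]) = u - n := by
      push_cast
      rfl
    rw [← h7]
    exact h5
  have hnn : ‖(n : ℚ_[p])‖ = 1 := by
    have h7 : (n : ℚ_[p]) = u + -(u - n) := by ring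
    rw [h7, IsUltrametricDist.norm_add_eq_max_of_norm_ne_norm (by rw [hun, norm_neg]; exact h6.ne'),
      hun, norm_neg]
    exact max_eq_left h6.le
  have h8 : (p : ℤ) ∣ (n : ℤ) ^ 2 + d' := by
    rw [← Padic.norm_intCast_lt_one_iff]
    have h9 : (((n : ℤ) ^ 2 + d' : ℤ) : ℚ_[p]) = -(u - n) * (u + n) := by
      push_cast
      have : (d' : ℚ_[p]) = -u ^ 2 := by rw [hu2, neg_neg]
      rw [this]
      ring
    rw [h9, norm_mul, norm_neg]
    have h10 : ‖u + (n : ℚ_[p])‖ ≤ 1 := by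
      refine (IsUltrametricDist.norm_add_le_max _ _).trans ?_
      rw [hun, hnn, max_self]
    calc ‖u - (n : ℚ_[p])‖ * ‖u + (n : ℚ_[p])‖ ≤ ‖u - (n : ℚ_[p])‖ * 1 :=
          mul_le_mul_of_nonneg_left h10 (norm_nonneg _)
      _ < 1 := by rw [mul_one]; exact h6
  obtain ⟨k, hk⟩ := h8
  refine ⟨v, d', n, k, rfl, ?_, hk⟩
  rw [← Padic.norm_intCast_lt_one_iff]
  push_cast
  rw [hnn]
  exact lt_irrefl _

/-- `2 n / p` is not integral -/
lemma not_int_q {p : ℕ} [Fact p.Prime] (hp : p ≠ 2) {n : ℤ} (hn : ¬ (p : ℤ) ∣ n) :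
    ¬ IsIntegral ℤ ((2 * n / p : ℚ)) := by
  have hpp : p.Prime := Fact.out
  intro h
  rw [IsIntegrallyClosed.isIntegral_iff] at h
  obtain ⟨y, hy⟩ := h
  rw [eq_intCast] at hy
  have hp0 : (p : ℚ) ≠ 0 := by exact_mod_cast hpp.ne_zero
  have h1 : ((p * y : ℤ) : ℚ) = ((2 * n : ℤ) : ℚ) := by
    push_cast
    rw [hy]
    field_simp
  have h2 : (p : ℤ) * y = 2 * n := by exact_mod_cast h1
  have hpz : Prime (p : ℤ) := Nat.prime_iff_prime_int.1 hpp
  rcases hpz.dvd_or_dvd (Dvd.intro y h2) with h3 | h3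
  · have h4 : p ∣ 2 := by exact_mod_cast h3
    exact hp ((Nat.prime_dvd_prime_iff_eq hpp Nat.prime_two).1 h4)
  · exact hn h3

lemma not_int {p : ℕ} [Fact p.Prime] (hp : p ≠ 2) {s : QB} {d : ℕ} (hs : s ^ 2 = -(d : QB))
    (hd : d ≠ 0) {v : ℕ} {n : ℤ} (hn : ¬ (p : ℤ) ∣ n) {x : QB}
    (hx : x = (n + s / p ^ v) / p ∨ x = (n - s / p ^ v) / p) : ¬ IsIntegral ℤ x := by
  intro h
  obtain ⟨c, hc⟩ := exists_conj hs hd
  have h1 : IsIntegral ℤ (c x) := h.map (c.toAlgHom.restrictScalars ℤ)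
  have h2 : IsIntegral ℤ (x + c x) := h.add h1
  have h3 : x + c x = algebraMap ℚ QB (2 * n / p) := by
    rw [map_div₀, map_mul, map_ofNat, map_intCast, map_natCast]
    rcases hx with rfl | rfl
    · rw [map_div₀, map_add, map_div₀, hc, map_intCast, map_pow, map_natCast]
      ring
    · rw [map_div₀, map_sub, map_div₀, hc, map_intCast, map_pow, map_natCast]
      ring
  rw [h3, isIntegral_algebraMap_iff (algebraMap ℚ QB).injective] at h2
  exact not_int_q hp hn h2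

/-- two prime ideals above `p` -/
lemma primes {p : ℕ} [Fact p.Prime] (hp : p ≠ 2) (L : Type) [Field L] [NumberField L] (tL : L)
    {d' : ℕ} {n k : ℤ} (hn : ¬ (p : ℤ) ∣ n) (hk : n ^ 2 + d' = p * k) (htsq : tL ^ 2 = -(d' : L))
    (hni : ∀ x : L, x = (n + tL) / p ∨ x = (n - tL) / p → ¬ IsIntegral ℤ x) :
    ∃ P₁ P₂ : Ideal (𝓞 L), P₁.IsPrime ∧ P₂.IsPrime ∧ P₁ ≠ P₂ ∧
      (p : 𝓞 L) ∈ P₁ ∧ (p : 𝓞 L) ∈ P₂ := by
  have hpp : p.Prime := Fact.out
  have hpL : (p : L) ≠ 0 := by exact_mod_cast hpp.ne_zero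
  have htint : IsIntegral ℤ tL := by
    refine ⟨X ^ 2 + C (d' : ℤ), by monicity!, ?_⟩
    rw [eval₂_add, eval₂_pow, eval₂_X, eval₂_C, eq_intCast, htsq]
    push_cast
    ring
  let t : 𝓞 L := ⟨tL, htint⟩
  have hcoe : ∀ x y : 𝓞 L, algebraMap (𝓞 L) L x = algebraMap (𝓞 L) L y → x = y :=
    fun x y h => NumberField.RingOfIntegers.ext h
  have ht : algebraMap (𝓞 L) L t = tL := rfl
  have htt : ((n : 𝓞 L) - t) * ((n : 𝓞 L) + t) = (p : 𝓞 L) * (k : 𝓞 L) := by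
    apply hcoe
    rw [map_mul, map_sub, map_add, map_mul, map_intCast, map_natCast, map_intCast, ht]
    have h1 : (n : L) ^ 2 + (d' : L) = p * k := by
      have := congrArg (Int.cast (R := L)) hk
      push_cast at this
      exact this
    linear_combination h1 - htsq
  have hval : ∀ v : 𝓞 L, IsIntegral ℤ (v : L) := fun v => v.2
  have hI1 : Ideal.span {(p : 𝓞 L), (n : 𝓞 L) - t} ≠ ⊤ := by
    rw [Ideal.ne_top_iff_one, Ideal.mem_span_pair]
    rintro ⟨a, b, hab⟩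
    refine hni ((a * ((n : 𝓞 L) + t) + b * (k : 𝓞 L) : 𝓞 L) : L) (Or.inl ?_) (hval _)
    have h1 : (p : 𝓞 L) * (a * ((n : 𝓞 L) + t) + b * (k : 𝓞 L)) = (n : 𝓞 L) + t := by
      linear_combination ((n : 𝓞 L) + t) * hab - b * htt
    have h2 := congrArg (algebraMap (𝓞 L) L) h1
    rw [map_mul, map_natCast, map_add _ (n : 𝓞 L), map_intCast] at h2
    rw [eq_div_iff hpL, mul_comm]
    exact h2
  have hI2 : Ideal.span {(p : 𝓞 L), (n : 𝓞 L) + t} ≠ ⊤ := by
    rw [Ideal.ne_top_iff_one, Ideal.mem_span_pair]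
    rintro ⟨a, b, hab⟩
    refine hni ((a * ((n : 𝓞 L) - t) + b * (k : 𝓞 L) : 𝓞 L) : L) (Or.inr ?_) (hval _)
    have h1 : (p : 𝓞 L) * (a * ((n : 𝓞 L) - t) + b * (k : 𝓞 L)) = (n : 𝓞 L) - t := by
      linear_combination ((n : 𝓞 L) - t) * hab - b * htt
    have h2 := congrArg (algebraMap (𝓞 L) L) h1
    rw [map_mul, map_natCast, map_sub _ (n : 𝓞 L), map_intCast] at h2
    rw [eq_div_iff hpL, mul_comm]
    exact h2
  obtain ⟨P₁, hP₁, hI1P⟩ := Ideal.exists_le_maximal _ hI1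
  obtain ⟨P₂, hP₂, hI2P⟩ := Ideal.exists_le_maximal _ hI2
  have hp1 : (p : 𝓞 L) ∈ P₁ := hI1P (Ideal.subset_span (Set.mem_insert _ _))
  have hp2 : (p : 𝓞 L) ∈ P₂ := hI2P (Ideal.subset_span (Set.mem_insert _ _))
  have hm1 : (n : 𝓞 L) - t ∈ P₁ := hI1P (Ideal.subset_span (Set.mem_insert_of_mem _ rfl))
  have hm2 : (n : 𝓞 L) + t ∈ P₂ := hI2P (Ideal.subset_span (Set.mem_insert_of_mem _ rfl))
  refine ⟨P₁, P₂, hP₁.isPrime, hP₂.isPrime, ?_, hp1, hp2⟩
  rintro rfl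
  apply hP₁.ne_top
  rw [Ideal.eq_top_iff_one]
  have h4 : 2 * (n : 𝓞 L) ∈ P₁ := by
    have := P₁.add_mem hm1 hm2
    have h5 : (n : 𝓞 L) - t + ((n : 𝓞 L) + t) = 2 * (n : 𝓞 L) := by ring
    rwa [h5] at this
  have h5 : IsCoprime (p : ℤ) (2 * n) := by
    have hpz : Prime (p : ℤ) := Nat.prime_iff_prime_int.1 hpp
    rw [hpz.coprime_iff_not_dvd]
    intro h6
    rcases hpz.dvd_or_dvd h6 with h3 | h3
    · have h4 : p ∣ 2 := by exact_mod_cast h3
      exact hp ((Nat.prime_dvd_prime_iff_eq hpp Nat.prime_two).1 h4)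
    · exact hn h3
  obtain ⟨a, b, hab⟩ := h5
  have h6 : (1 : 𝓞 L) = (a : 𝓞 L) * (p : 𝓞 L) + (b : 𝓞 L) * (2 * (n : 𝓞 L)) := by
    have := congrArg (Int.cast (R := 𝓞 L)) hab
    push_cast at this
    exact this.symm
  rw [h6]
  exact P₁.add_mem (P₁.mul_mem_left _ hp1) (P₁.mul_mem_left _ h4)

/-- **[D2]** -/
theorem s_D2 (hD1 : S_D1) : S_D2 := by
  intro p hpF s d hspl U hU hmu
  have hpp : p.Prime := Fact.out
  have hd : d ≠ 0 := hspl.pos.ne'
  have hs := hspl.sq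
  obtain ⟨v, d', n, k, hdd, hn, hk⟩ := split_arith hspl.pos hspl.loc
  let L : IntermediateField (KK s) QB := IntermediateField.fixedField U
  have hfix : L.fixingSubgroup = U :=
    InfiniteGalois.fixingSubgroup_fixedField ⟨U, U.isClosed_of_isOpen hU⟩
  have hfd : FiniteDimensional (KK s) L := (InfiniteGalois.isOpen_iff_finite L).1 (by
    rw [hfix]; exact hU)
  have hfr : Module.finrank (KK s) L = U.index := by
    rw [IntermediateField.finrank_eq_fixingSubgroup_index, hfix]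
  have hKfd : FiniteDimensional ℚ (KK s) := Module.finite_of_finrank_pos (by
    rw [finrank_KK hs hd]; norm_num)
  have hLfd : FiniteDimensional ℚ L := FiniteDimensional.trans ℚ (KK s) L
  have hLr : Module.finrank ℚ L = 2 * U.index := by
    rw [← hfr, ← finrank_KK hs hd, Module.finrank_mul_finrank]
  have hNF : NumberField L := { to_charZero := inferInstance, to_finiteDimensional := hLfd }
  let sL : L := algebraMap (KK s) L ⟨s, i₀_mem⟩
  have hsL : (sL : QB) = s := rfl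
  have hsL2 : sL ^ 2 = -(d : L) := by
    apply Subtype.ext
    push_cast
    rw [hsL, hs]
  have hcpx : NumberField.InfinitePlace.nrRealPlaces L = 0 := by
    classical
    have hE : IsEmpty {w : NumberField.InfinitePlace L // w.IsReal} := by
      refine ⟨fun w => ?_⟩
      have h1 : (NumberField.InfinitePlace.embedding_of_isReal w.2 sL) ^ 2 = -(d : ℝ) := by
        rw [← map_pow, hsL2, map_neg, map_natCast]
      have h3 : (0 : ℝ) < d := by exact_mod_cast Nat.pos_of_ne_zero hd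
      nlinarith [sq_nonneg (NumberField.InfinitePlace.embedding_of_isReal w.2 sL)]
    unfold NumberField.InfinitePlace.nrRealPlaces
    rw [Fintype.card_eq_zero_iff]
    exact hE
  have hζ : ∃ ζ : L, IsPrimitiveRoot ζ p := by
    obtain ⟨ξ, hξ⟩ := HasEnoughRootsOfUnity.exists_primitiveRoot QB p
    refine ⟨⟨ξ, fun σ => hmu σ σ.2 ξ hξ.pow_eq_one⟩, ?_⟩
    exact IsPrimitiveRoot.of_map_of_injective (f := L.val) (by exact hξ) L.val.injective
  have hpL : (p : L) ≠ 0 := by exact_mod_cast hpp.ne_zero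
  have hpQ : (p : QB) ≠ 0 := by exact_mod_cast hpp.ne_zero
  -- the element `t`
  have htsq : (sL / p ^ v) ^ 2 = -(d' : L) := by
    rw [div_pow, hsL2, hdd]
    push_cast
    field_simp
    ring
  have hni : ∀ x : L, x = (n + sL / p ^ v) / p ∨ x = (n - sL / p ^ v) / p → ¬ IsIntegral ℤ x := by
    intro x hx hxi
    refine not_int hspl.odd hs hd (v := v) hn (x := (x : QB)) ?_
      (hxi.map (L.val.restrictScalars ℤ))
    rcases hx with hx | hx
    · left
      rw [hx]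
      push_cast
      rw [hsL]
    · right
      rw [hx]
      push_cast
      rw [hsL]
  obtain ⟨P₁, P₂, hP₁, hP₂, hne, hp1, hp2⟩ := primes hspl.odd L (sL / p ^ v) hn hk htsq hni
  obtain ⟨u, hu0, hu2, huS⟩ := hD1 p hspl.odd L U.index hLr hcpx hζ P₁ P₂ hP₁ hP₂
    hne hp1 hp2
  refine ⟨fun i => (u i : QB), ?_, ?_, ?_⟩
  · intro i σ hσ
    exact (u i).2 ⟨σ, hσ⟩
  · intro i
    obtain ⟨m, h1, h2⟩ := hu2 i
    refine ⟨fun h => hu0 i (Subtype.ext h), m, ?_, ?_⟩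
    · have := h1.map (L.val.restrictScalars ℤ)
      simpa using this
    · have := h2.map (L.val.restrictScalars ℤ)
      simpa using this
  · rintro e ⟨y, hy, hye⟩
    apply huS e
    refine ⟨⟨y, fun σ => hy σ σ.2⟩, ?_⟩
    apply Subtype.ext
    push_cast
    exact hye

end Pool.Agent.L7h60.SG.D2

/-- **[D2]** -/
theorem Pool.Agent.L7h60.SG.s_D2 (hD1 : Pool.Agent.L7h48.SG.S_D1) : Pool.Agent.L7h48.SG.S_D2 :=
  Pool.Agent.L7h60.SG.D2.s_D2 hD1
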