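import Mathlib
import Pool.Agent.L7h60.SG.Kum

/-!
# Project SG (helper48, MP_b4b3cb_nt): [F1]
-/

set_option autoImplicit false
set_option linter.unusedSectionVars false

namespace Pool.Agent.L7h60.SG

open Pool.Agent.L7h48.SG
open Pool.Agent.Y715.Gi (QB KK GK)
open Pool.Agent.Y715.Nr Pool.Agent.W237.RK
open Pool.Agent.Z384 (II DD DDs)

/-- a nontrivial finite `p`-group has a nontrivial homomorphism to `ZMod p` -/
lemma exists_hom (p : ℕ) [Fact p.Prime] (S : Type) [Group S] [Finite S] [Nontrivial S]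
    (hS : ∀ x : S, ∃ k : ℕ, x ^ p ^ k = 1) :
    ∃ π : S →* Multiplicative (ZMod p), ∃ x : S, π x ≠ 1 := by
  classical
  have hp : p.Prime := Fact.out
  have hpg : IsPGroup p S := hS
  obtain ⟨n, hn⟩ := hpg.exists_card_eq
  have hn0 : n ≠ 0 := by
    rintro rfl
    rw [pow_zero] at hn
    have := Finite.one_lt_card (α := S)
    omega
  obtain ⟨m, rfl⟩ := Nat.exists_eq_succ_of_ne_zero hn0
  obtain ⟨K, hK⟩ := Sylow.exists_subgroup_card_pow_prime (G := S) p (n := m)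
    (by rw [hn]; exact pow_dvd_pow _ (Nat.le_succ m))
  have hKi : K.index = p := by
    have h1 := K.card_mul_index
    rw [hK, hn, pow_succ] at h1
    exact Nat.eq_of_mul_eq_mul_left (pow_pos hp.pos m) h1
  have hKn : K.Normal := by
    apply Subgroup.normal_of_index_eq_minFac_card
    rw [hKi, hn, hp.pow_minFac (Nat.succ_ne_zero m)]
  have hq : Nat.card (S ⧸ K) = p := hKi
  have hz : Nat.card (Multiplicative (ZMod p)) = p := by
    rw [Nat.card_congr Multiplicative.toAdd, Nat.card_zmod]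
  let e : S ⧸ K ≃* Multiplicative (ZMod p) := mulEquivOfPrimeCardEq hq hz
  refine ⟨e.toMonoidHom.comp (QuotientGroup.mk' K), ?_⟩
  by_contra hcon
  push Not at hcon
  have h1 : K = ⊤ := by
    rw [eq_top_iff]
    intro x _
    have h2 : e (QuotientGroup.mk' K x) = 1 := hcon x
    have h3 : QuotientGroup.mk' K x = 1 := e.injective (by rw [h2, map_one])
    exact (QuotientGroup.eq_one_iff x).1 h3
  rw [h1, Subgroup.index_top] at hKi
  exact hp.one_lt.ne hKi

/-- **[F1]** -/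
theorem s_F1 (hE0 : S_E0) (hE2 : S_E2) : S_F1 := by
  classical
  intro p _ s d hspl ι₀ 𝓛 hlev H _ _ r hr hrp
  obtain ⟨-, -, hNf, -⟩ := hE0 p s d hspl ι₀ 𝓛 hlev
  obtain ⟨-, hext, -⟩ := hE2 p s d hspl ι₀ 𝓛 hlev
  -- an open subgroup on which `r` is trivial
  obtain ⟨W₀, hW₀, hW₀r⟩ : ∃ W₀ : Subgroup (GK s), IsOpen (W₀ : Set (GK s)) ∧
      ∀ w : DDs (s := s) ι₀, (w : GK s) ∈ W₀ → r w = 1 := by
    obtain ⟨O, hO, hOr⟩ := isOpen_induced_iff.1 (hr.isOpen_fiber 1)
    have h1 : (1 : GK s) ∈ O := by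
      have h2 : (1 : DDs (s := s) ι₀) ∈ (Subtype.val ⁻¹' O : Set (DDs (s := s) ι₀)) := by
        rw [hOr]
        exact map_one r
      exact h2
    obtain ⟨L, hL, hLO⟩ := (krullTopology_mem_nhds_one_iff _ _ _).1 (hO.mem_nhds h1)
    refine ⟨L.fixingSubgroup, IntermediateField.fixingSubgroup_isOpen L, fun w hw => ?_⟩
    have h2 : w ∈ (Subtype.val ⁻¹' O : Set (DDs (s := s) ι₀)) := hLO hw
    rw [hOr] at h2
    exact h2
  -- the induction
  have key : ∀ (n : ℕ) (S : Subgroup H), Nat.card S = n → (∀ x ∈ S, ∃ k : ℕ, x ^ p ^ k = 1) →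
      ∀ U : Subgroup (GK s), IsOpen (U : Set (GK s)) → Nf p 𝓛 ≤ U → U ≤ 𝓛 →
      (∀ δ : DDs (s := s) ι₀, (δ : GK s) ∈ U ↔ (δ : GK s) ∈ 𝓛 ∧ r δ ∈ S) →
      ∃ U' : Subgroup (GK s), Nf p 𝓛 ≤ U' ∧ ∀ δ : DDs (s := s) ι₀, (δ : GK s) ∈ U' → r δ = 1 := by
    intro n
    induction n using Nat.strong_induction_on with
    | _ n ih =>
      intro S hn hS U hU hNU hU𝓛 hUS
      by_cases hSb : S = ⊥
      · refine ⟨U, hNU, fun δ hδ => ?_⟩
        have h1 := ((hUS δ).1 hδ).2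
        rw [hSb] at h1
        exact Subgroup.mem_bot.1 h1
      · have hnt : Nontrivial S := (Subgroup.nontrivial_iff_ne_bot S).2 hSb
        obtain ⟨π, x₀, hx₀⟩ := exists_hom p S (by
          rintro ⟨x, hx⟩
          obtain ⟨k, hk⟩ := hS x hx
          exact ⟨k, Subtype.ext hk⟩)
        -- the function on the decomposition group
        have hmem : ∀ (σ : GK s) (h : σ ∈ DDs (s := s) ι₀), σ ∈ U → r ⟨σ, h⟩ ∈ S :=
          fun σ h hσ => ((hUS ⟨σ, h⟩).1 hσ).2
        set φ : GK s → ZMod p := fun σ =>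
          if h : σ ∈ DDs (s := s) ι₀ ∧ σ ∈ U then
            Multiplicative.toAdd (π ⟨r ⟨σ, h.1⟩, hmem σ h.1 h.2⟩) else 0 with hφ
        have hφe : ∀ (σ : GK s) (h : σ ∈ DDs (s := s) ι₀) (h' : σ ∈ U),
            φ σ = Multiplicative.toAdd (π ⟨r ⟨σ, h⟩, hmem σ h h'⟩) := by
          intro σ h h'
          rw [hφ]
          exact dif_pos ⟨h, h'⟩
        have hφm : ∀ x ∈ DDs (s := s) ι₀, x ∈ U → ∀ y ∈ DDs (s := s) ι₀, y ∈ U →
            φ (x * y) = φ x + φ y := by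
          intro x hx hxU y hy hyU
          rw [hφe x hx hxU, hφe y hy hyU, hφe (x * y) (mul_mem hx hy) (mul_mem hxU hyU), ← toAdd_mul,
            ← map_mul]
          congr 2
          apply Subtype.ext
          exact map_mul r ⟨x, hx⟩ ⟨y, hy⟩
        obtain ⟨φ', hφ', hφN, hφδ⟩ := hext U hU hNU hU𝓛 φ ⟨W₀ ⊓ U, hW₀.inter hU, by
          intro δ hδ w hw hwW hδU
          have h1 : φ w = 0 := by
            rw [hφe w hw hwW.2]
            have h2 : (⟨r ⟨w, hw⟩, hmem w hw hwW.2⟩ : S) = 1 :=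
              Subtype.ext (hW₀r ⟨w, hw⟩ hwW.1)
            rw [h2, map_one]
            rfl
          rw [hφm δ hδ hδU w hw hwW.2, h1, add_zero]⟩ hφm
        refine ih (Nat.card (π.ker.map S.subtype)) ?_ (π.ker.map S.subtype) rfl ?_ (Kr p hφ')
          (isOpen_Kr p hU hφ') ?_ ?_ ?_
        · rw [← hn, Nat.card_congr (Subgroup.equivMapOfInjective _ _
            (Subtype.val_injective)).symm.toEquiv]
          have h1 : π.ker ≠ ⊤ := by
            intro h
            have h2 : x₀ ∈ π.ker := by rw [h]; trivial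
            exact hx₀ h2
          by_contra h3
          exact h1 (Subgroup.eq_top_of_le_card _ (not_lt.1 h3))
        · rintro x ⟨y, -, rfl⟩
          exact hS y y.2
        · intro σ hσ
          exact ⟨hNU hσ, hφN σ hσ⟩
        · exact fun σ hσ => hU𝓛 hσ.1
        · intro δ
          constructor
          · rintro ⟨h1, h2⟩
            have h3 : (δ : GK s) ∈ U := h1
            refine ⟨hU𝓛 h3, ⟨⟨r δ, ((hUS δ).1 h3).2⟩, ?_, rfl⟩⟩
            change φ' (δ : GK s) = 0 at h2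
            rw [hφδ _ δ.2 h3, hφe _ δ.2 h3] at h2
            exact h2
          · rintro ⟨h1, ⟨y, hy, hyδ⟩⟩
            have h2 : r δ ∈ S := by
              rw [← hyδ]
              exact y.2
            have h3 : (δ : GK s) ∈ U := (hUS δ).2 ⟨h1, h2⟩
            refine ⟨h3, ?_⟩
            rw [hφδ _ δ.2 h3, hφe _ δ.2 h3]
            have h4 : (⟨r ⟨(δ : GK s), δ.2⟩, hmem _ δ.2 h3⟩ : S) = y := Subtype.ext hyδ.symm
            rw [h4]
            exact hy
  obtain ⟨U', hNU', hU'⟩ := key _ (((𝓛.comap (DDs (s := s) ι₀).subtype).map r)) rfl (by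
      rintro x ⟨δ, hδ, rfl⟩
      obtain ⟨k, hk⟩ := hrp δ hδ
      exact ⟨k, hk⟩) 𝓛 hlev.isOpen hNf le_rfl (by
      intro δ
      exact ⟨fun h => ⟨h, ⟨δ, h, rfl⟩⟩, fun h => h.1⟩)
  exact fun δ hδ => hU' δ (hNU' hδ)

end Pool.Agent.L7h60.SG
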